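import Pool.Agent.ZCInf.Defs
import Pool.Agent.ZC.AddRel

/-!
# Bilinearity of the symbols, up to `2`-torsion, without conditions
-/

set_option autoImplicit false

noncomputable section

namespace Pool.Agent.ZC

open Polynomial WeierstrassCurve
open scoped Classical

theorem jensen2 {G A : Type} [AddCommGroup G] [AddCommGroup A]
    (hG : ∀ T : Finset G, ∃ z : G, ∀ t ∈ T, z ≠ t ∧ z + z ≠ t) (c : G → A) (h0 : c 0 = 0)
    (hJ : ∀ P P' : G, P ≠ -P → P ≠ P' → P ≠ -P' → c (P' + P) + c (P' - P) = 2 • c P') (x y : G) :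
    2 • c (x + y) = 2 • c x + 2 • c y := by
  have hz2 : ∀ z : G, z ≠ -z ↔ z + z ≠ 0 := by
    intro z
    rw [Ne, Ne, eq_neg_iff_add_eq_zero]
  have hneg : ∀ P : G, P + P ≠ 0 → c P + c (-P) = 0 := by
    intro P hP
    have hP0 : P ≠ 0 := by
      rintro rfl
      exact hP (add_zero 0)
    have h := hJ P 0 ((hz2 P).2 hP) hP0 (by simpa using hP0)
    rw [zero_add, zero_sub, h0, smul_zero] at h
    exact h
  have hgen : ∀ x y : G, x + x ≠ 0 → y + y ≠ 0 → (x - y) + (x - y) ≠ 0 → x + y ≠ 0 →
      2 • c (x + y) = 2 • c x + 2 • c y := by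
    intro x y hx hy hxy hn
    have hne : x ≠ y := by
      rintro rfl
      apply hxy
      rw [sub_self, add_zero]
    have hn' : x ≠ -y := fun h => hn (by rw [h, neg_add_cancel])
    have hn'' : y ≠ -x := fun h => hn (by rw [h, add_neg_cancel])
    have e1 := hJ y x ((hz2 y).2 hy) (Ne.symm hne) hn''
    have e2 := hJ x y ((hz2 x).2 hx) hne hn'
    have e3 := hneg (x - y) hxy
    rw [neg_sub] at e3
    rw [add_comm y x] at e2
    rw [← e1, ← e2]
    calc 2 • c (x + y) = 2 • c (x + y) + (c (x - y) + c (y - x)) := by rw [e3, add_zero]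
      _ = _ := by abel
  have htor : ∀ a : G, a + a = 0 → ∀ P : G, 2 • c (P + a) = 2 • c P := by
    intro a ha P
    obtain ⟨z, hz⟩ := hG {0, P, -P}
    have z0 := hz 0 (by simp)
    have z1 := hz P (by simp)
    have z2 := hz (-P) (by simp)
    have e1 := hJ z P ((hz2 z).2 z0.2) z1.1 z2.1
    have ha' : a = -a := eq_neg_of_add_eq_zero_left ha
    have e2 := hJ (z + a) (P + a) ((hz2 _).2 (by
      rw [show z + a + (z + a) = (z + z) + (a + a) by abel, ha, add_zero]
      exact z0.2)) (fun h => z1.1 (add_right_cancel h)) (fun h => z2.1 (by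
        rw [neg_add, ← ha'] at h
        exact add_right_cancel h))
    rw [show P + a + (z + a) = (P + z) + (a + a) by abel, ha, add_zero,
      show P + a - (z + a) = P - z by abel, e1] at e2
    exact e2.symm
  have htor0 : ∀ a : G, a + a = 0 → 2 • c a = 0 := by
    intro a ha
    have := htor a ha 0
    rw [zero_add, h0, smul_zero] at this
    exact this
  by_cases hx : x + x = 0
  · rw [htor0 x hx, add_comm, htor x hx, zero_add]
  by_cases hy : y + y = 0
  · rw [htor0 y hy, htor y hy, add_zero]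
  obtain ⟨z, hz⟩ := hG {0, x + x, -x, -(x + x), (y - x) + (y - x), -(x + y), (x + y) + (x + y)}
  have z0 := hz 0 (by simp)
  have z1 := hz (x + x) (by simp)
  have z2 := hz (-x) (by simp)
  have z3 := hz (-(x + x)) (by simp)
  have z4 := hz ((y - x) + (y - x)) (by simp)
  have z5 := hz (-(x + y)) (by simp)
  have z6 := hz ((x + y) + (x + y)) (by simp)
  have e1 := hgen x z hx z0.2 (fun h => z1.2 (by
    have h' : (x + x) - (z + z) = 0 := by
      rw [← h]
      abel
    exact (sub_eq_zero.1 h').symm)) (fun h => z2.1 (eq_neg_of_add_eq_zero_right h))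
  have e2 := hgen (x + z) y (fun h => z3.2 (by
      have h' : (z + z) + (x + x) = 0 := by
        rw [← h]
        abel
      exact eq_neg_of_add_eq_zero_left h')) hy (fun h => z4.2 (by
      have h' : (z + z) - ((y - x) + (y - x)) = 0 := by
        rw [← h]
        abel
      exact sub_eq_zero.1 h')) (fun h => z5.1 (by
      have h' : z + (x + y) = 0 := by
        rw [← h]
        abel
      exact eq_neg_of_add_eq_zero_left h'))
  have e3 : 2 • c (x + y + z) = 2 • c (x + y) + 2 • c z := by
    by_cases h2 : (x + y) + (x + y) = 0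
    · rw [htor0 _ h2, add_comm (x + y) z, htor _ h2, zero_add]
    · refine hgen (x + y) z h2 z0.2 (fun h => z6.2 (by
        have h' : ((x + y) + (x + y)) - (z + z) = 0 := by
          rw [← h]
          abel
        exact (sub_eq_zero.1 h').symm)) (fun h => z5.1 (eq_neg_of_add_eq_zero_right h))
  have e4 : x + z + y = x + y + z := by abel
  rw [e4, e3, e1] at e2
  have e5 : 2 • c (x + y) + 2 • c z = (2 • c x + 2 • c y) + 2 • c z := by
    rw [e2]
    abel
  exact add_right_cancel e5

private lemma bil2_two {k : Type} [Field k] [CharZero k] {l : k} (h0 : l ≠ 0) (h1 : l ≠ 1) :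
    {w : (leg l).toAffine.Point | w + w = 0}.Finite := by
  have hl := IsLeg.leg h0 h1
  let S : k → Set (leg l).toAffine.Point := fun u =>
    {w | ∃ h : (leg l).toAffine.Nonsingular u 0, w = .some u 0 h}
  have hS : ∀ u, (S u).Finite := by
    intro u
    apply Set.Subsingleton.finite
    rintro w ⟨h, rfl⟩ w' ⟨h', rfl⟩
    rfl
  refine (((Set.finite_singleton (0 : (leg l).toAffine.Point)).union (hS 0)).union
    ((hS 1).union (hS l))).subset ?_
  intro w hw
  rw [Set.mem_ofPred_eq] at hw
  rcases w with _ | ⟨u, y, h⟩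
  · exact Or.inl (Or.inl rfl)
  · have h2 : (Affine.Point.some u y h : (leg l).toAffine.Point) = -.some u y h :=
      eq_neg_of_add_eq_zero_left hw
    rw [Affine.Point.neg_some] at h2
    have h3 : y = (leg l).toAffine.negY u y := by
      injection h2
    have h4 : (leg l).toAffine.negY u y = -y := by
      simp [Affine.negY, leg]
    rw [h4] at h3
    have hy : y = 0 := by
      have : (2 : k) * y = 0 := by linear_combination h3
      simpa using this
    subst hy
    have hE : (0 : k) ^ 2 = u * (u - 1) * (u - l) := (hl.nonsingular u 0).1 h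
    rw [zero_pow two_ne_zero, eq_comm, mul_eq_zero, mul_eq_zero] at hE
    rcases hE with (hE | hE) | hE
    · subst hE
      exact Or.inl (Or.inr ⟨h, rfl⟩)
    · rw [sub_eq_zero] at hE
      subst hE
      exact Or.inr (Or.inl ⟨h, rfl⟩)
    · rw [sub_eq_zero] at hE
      subst hE
      exact Or.inr (Or.inr ⟨h, rfl⟩)

theorem leg_many {k : Type} [Field k] [CharZero k] [IsAlgClosed k] {l : k} (h0 : l ≠ 0)
    (h1 : l ≠ 1) (T : Finset (leg l).toAffine.Point) :
    ∃ z : (leg l).toAffine.Point, ∀ t ∈ T, z ≠ t ∧ z + z ≠ t := by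
  have hl := IsLeg.leg h0 h1
  have hsq : ∀ u : k, ∃ y : k, y ^ 2 = u * (u - 1) * (u - l) := fun u =>
    IsAlgClosed.exists_pow_nat_eq _ two_pos
  choose y hy using hsq
  let f : k → (leg l).toAffine.Point := fun u => .some u (y u) ((hl.nonsingular u (y u)).2 (hy u))
  have hf : Function.Injective f := by
    intro u u' h
    injection h
  have hinf : Infinite (leg l).toAffine.Point := Infinite.of_injective f hf
  have hfin : ∀ t : (leg l).toAffine.Point, {z : (leg l).toAffine.Point | z + z = t}.Finite := by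
    intro t
    by_cases hne : ∃ z₀ : (leg l).toAffine.Point, z₀ + z₀ = t
    · obtain ⟨z₀, hz₀⟩ := hne
      refine ((bil2_two h0 h1).image (fun w => w + z₀)).subset ?_
      intro z hz
      rw [Set.mem_ofPred_eq] at hz
      refine ⟨z - z₀, ?_, sub_add_cancel z z₀⟩
      rw [Set.mem_ofPred_eq, show z - z₀ + (z - z₀) = (z + z) - (z₀ + z₀) by abel, hz, hz₀, sub_self]
    · convert Set.finite_empty
      rw [Set.eq_empty_iff_forall_notMem]
      intro z hz
      exact hne ⟨z, hz⟩
  have hB : ((T : Set (leg l).toAffine.Point) ∪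
      ⋃ t ∈ T, {z : (leg l).toAffine.Point | z + z = t}).Finite :=
    (Finset.finite_toSet T).union (Set.Finite.biUnion (Finset.finite_toSet T) fun t _ => hfin t)
  obtain ⟨z, hz⟩ := hB.exists_notMem
  refine ⟨z, fun t ht => ⟨?_, ?_⟩⟩
  · rintro rfl
    exact hz (Or.inl ht)
  · intro h
    exact hz (Or.inr (Set.mem_biUnion ht h))

/-- (imports AddRel) -/
theorem two_add {k : Type} [Field k] [CharZero k] [IsAlgClosed k] {l : k} (h0 : l ≠ 0)
    (h1 : l ≠ 1) (W₂ : WeierstrassCurve k) (x y : (leg l).toAffine.Point)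
    (Q : W₂.toAffine.Point) :
    (2 : ℕ) • (Finsupp.single (x + y, Q) (1 : ℤ) - Finsupp.single (x, Q) 1 -
      Finsupp.single (y, Q) 1 + Finsupp.single (0, Q) 1) ∈ RatEq (leg l) W₂ := by
  let π : Z0 (leg l) W₂ →+ CH0 (leg l) W₂ := QuotientAddGroup.mk' (RatEq (leg l) W₂)
  have hπ : ∀ z, π z = 0 ↔ z ∈ RatEq (leg l) W₂ := fun z => QuotientAddGroup.eq_zero_iff z
  let c : (leg l).toAffine.Point → CH0 (leg l) W₂ := fun P =>
    π (Finsupp.single (P, Q) (1 : ℤ) - Finsupp.single ((0 : (leg l).toAffine.Point), Q) 1)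
  have hc0 : c 0 = 0 := by
    simp only [c, sub_self, map_zero]
  have hJ : ∀ P P' : (leg l).toAffine.Point, P ≠ -P → P ≠ P' → P ≠ -P' →
      c (P' + P) + c (P' - P) = 2 • c P' := by
    intro P P' hP hPP hPn
    have hr := rel_add h0 h1 W₂ P P' hP hPP hPn Q
    rw [← hπ] at hr
    rw [← sub_eq_zero]
    simp only [c]
    rw [← hr, ← map_nsmul, ← map_add, ← map_sub]
    congr 1
    have e2 : (Finsupp.single (P', Q) (2 : ℤ) : Z0 (leg l) W₂) =
        2 • Finsupp.single (P', Q) (1 : ℤ) := by
      rw [Finsupp.smul_single]; rfl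
    rw [e2]
    abel
  have hj := jensen2 (leg_many h0 h1) c hc0 hJ x y
  rw [← hπ, map_nsmul]
  simp only [c] at hj
  rw [← map_nsmul, ← map_nsmul, ← map_nsmul, ← map_add, ← sub_eq_zero, ← map_sub] at hj
  rw [← map_nsmul, ← hj]
  congr 1
  abel

end Pool.Agent.ZC
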