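import Pool.Agent.ZCInf.Defs

/-!
# Multiples of a point of infinite order with large abscissa
-/

set_option autoImplicit false

noncomputable section

namespace Pool.Agent.ZC

open Polynomial WeierstrassCurve
open scoped Classical

private theorem close_add {l : AlgebraicClosure ℚ} (K : Subfield (AlgebraicClosure ℚ)) (hl : l ∈ K)
    (P P' : (leg l).toAffine.Point)
    (hP : ∀ x y h, P = .some x y h → x ∈ K ∧ y ∈ K)
    (hP' : ∀ x y h, P' = .some x y h → x ∈ K ∧ y ∈ K) :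
    ∀ x y h, P + P' = .some x y h → x ∈ K ∧ y ∈ K := by
  intro x y h e
  rcases P with _ | ⟨x1, y1, h1⟩
  · rw [← Affine.Point.zero_def, zero_add] at e
    exact hP' x y h e
  rcases P' with _ | ⟨x2, y2, h2⟩
  · rw [← Affine.Point.zero_def, add_zero] at e
    exact hP x y h e
  obtain ⟨a1, b1⟩ := hP x1 y1 h1 rfl
  obtain ⟨a2, b2⟩ := hP' x2 y2 h2 rfl
  by_cases hxy : x1 = x2 ∧ y1 = (leg l).toAffine.negY x2 y2
  · rw [Affine.Point.add_of_Y_eq hxy.1 hxy.2] at e
    exact absurd e.symm (Affine.Point.some_ne_zero h)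
  · rw [Affine.Point.add_some hxy, Affine.Point.some.injEq] at e
    obtain ⟨rfl, rfl⟩ := e
    have k2 : (2 : AlgebraicClosure ℚ) ∈ K := by
      have := K.add_mem K.one_mem K.one_mem
      rwa [one_add_one_eq_two] at this
    have k3 : (3 : AlgebraicClosure ℚ) ∈ K := by
      have := K.add_mem k2 K.one_mem
      rwa [two_add_one_eq_three] at this
    have hs : (leg l).toAffine.slope x1 x2 y1 y2 ∈ K := by
      unfold Affine.slope Affine.negY leg
      simp only
      split_ifs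
      · exact K.zero_mem
      · refine K.div_mem ?_ ?_
        · exact K.sub_mem (K.add_mem (K.add_mem (K.mul_mem k3 (K.pow_mem a1 2))
            (K.mul_mem (K.mul_mem k2 (K.neg_mem (K.add_mem K.one_mem hl))) a1)) hl)
            (K.mul_mem K.zero_mem b1)
        · exact K.sub_mem b1 (K.sub_mem (K.sub_mem (K.neg_mem b1) (K.mul_mem K.zero_mem a1))
            K.zero_mem)
      · exact K.div_mem (K.sub_mem b1 b2) (K.sub_mem a1 a2)
    have hX : (leg l).toAffine.addX x1 x2 ((leg l).toAffine.slope x1 x2 y1 y2) ∈ K := by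
      unfold Affine.addX leg
      simp only
      exact K.sub_mem (K.sub_mem (K.sub_mem (K.add_mem (K.pow_mem hs 2)
        (K.mul_mem K.zero_mem hs)) (K.neg_mem (K.add_mem K.one_mem hl))) a1) a2
    refine ⟨hX, ?_⟩
    unfold Affine.addY Affine.negAddY Affine.negY
    refine K.sub_mem (K.sub_mem (K.neg_mem (K.add_mem (K.mul_mem hs (K.sub_mem hX a1)) b1))
      (K.mul_mem K.zero_mem hX)) K.zero_mem

/-- the abscissas of the sum and of the difference of two points -/
private theorem close_sum {l : AlgebraicClosure ℚ} (h0 : l ≠ 0) (h1 : l ≠ 1)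
    {x1 y1 x2 y2 : AlgebraicClosure ℚ} (n1 : (leg l).toAffine.Nonsingular x1 y1)
    (n2 : (leg l).toAffine.Nonsingular x2 y2) (hx : x1 ≠ x2) :
    ∃ (X Y : AlgebraicClosure ℚ) (h : (leg l).toAffine.Nonsingular X Y)
      (X' Y' : AlgebraicClosure ℚ) (h' : (leg l).toAffine.Nonsingular X' Y'),
      Affine.Point.some x1 y1 n1 + Affine.Point.some x2 y2 n2 = .some X Y h ∧
      Affine.Point.some x1 y1 n1 - Affine.Point.some x2 y2 n2 = .some X' Y' h' ∧
      X * X' * (x1 - x2) ^ 2 = (x1 * x2 - l) ^ 2 ∧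
      (X - 1) * (X' - 1) * (x1 - x2) ^ 2 = (x1 * x2 - x1 - x2 + l) ^ 2 := by
  have hW : IsLeg (leg l) l := IsLeg.leg h0 h1
  have e1 : y1 ^ 2 = x1 * (x1 - 1) * (x1 - l) := (hW.nonsingular x1 y1).1 n1
  have e2 : y2 ^ 2 = x2 * (x2 - 1) * (x2 - l) := (hW.nonsingular x2 y2).1 n2
  have hneg : (leg l).toAffine.negY x2 y2 = -y2 := by
    rw [Affine.negY, hW.a₁, hW.a₃]
    ring
  have n2' : (leg l).toAffine.Nonsingular x2 (-y2) := by
    rw [hW.nonsingular, neg_sq, e2]
  have hn : -(Affine.Point.some x2 y2 n2 : (leg l).toAffine.Point) = .some x2 (-y2) n2' := by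
    rw [Affine.Point.neg_some, Affine.Point.some.injEq]
    exact ⟨rfl, hneg⟩
  have hd : x1 - x2 ≠ 0 := sub_ne_zero.2 hx
  have s1 : (leg l).toAffine.slope x1 x2 y1 y2 = (y1 - y2) / (x1 - x2) := Affine.slope_of_X_ne hx
  have s2 : (leg l).toAffine.slope x1 x2 y1 (-y2) = (y1 - -y2) / (x1 - x2) :=
    Affine.slope_of_X_ne hx
  have X1 : (leg l).toAffine.addX x1 x2 ((leg l).toAffine.slope x1 x2 y1 y2) =
      (x1 * (x1 - 1) * (x1 - l) + x2 * (x2 - 1) * (x2 - l) - 2 * (y1 * y2) +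
        (1 + l - x1 - x2) * (x1 - x2) ^ 2) / (x1 - x2) ^ 2 := by
    rw [s1, Affine.addX, hW.a₁, hW.a₂, ← e1, ← e2]
    field_simp
    ring
  have X2 : (leg l).toAffine.addX x1 x2 ((leg l).toAffine.slope x1 x2 y1 (-y2)) =
      (x1 * (x1 - 1) * (x1 - l) + x2 * (x2 - 1) * (x2 - l) + 2 * (y1 * y2) +
        (1 + l - x1 - x2) * (x1 - x2) ^ 2) / (x1 - x2) ^ 2 := by
    rw [s2, Affine.addX, hW.a₁, hW.a₂, ← e1, ← e2]
    field_simp
    ring
  have hyy : (y1 * y2) ^ 2 = x1 * (x1 - 1) * (x1 - l) * (x2 * (x2 - 1) * (x2 - l)) := by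
    rw [mul_pow, e1, e2]
  refine ⟨_, _, Affine.nonsingular_add n1 n2 (fun h => hx h.1), _, _,
    Affine.nonsingular_add n1 n2' (fun h => hx h.1), ?_, ?_, ?_, ?_⟩
  · exact Affine.Point.add_some (fun h => hx h.1)
  · rw [sub_eq_add_neg, hn]
    exact Affine.Point.add_some (fun h => hx h.1)
  · rw [X1, X2]
    field_simp
    linear_combination (-4) * hyy
  · rw [X1, X2]
    field_simp
    linear_combination (-4) * hyy

/-- the estimate -/
private theorem close_est {a b L X X' : PadicAlgCl 2} {C ε : ℝ} (hC : 1 ≤ C) (hε : 0 ≤ ε)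
    (ha : ‖a‖ ≤ C) (hX : ‖X‖ ≤ C) (hX' : ‖X'‖ ≤ C) (hab : ‖a - b‖ ≤ ε)
    (e1 : X * X' * (a - b) ^ 2 = (a * b - L) ^ 2)
    (e2 : (X - 1) * (X' - 1) * (a - b) ^ 2 = (a * b - a - b + L) ^ 2) :
    ‖L ^ 2 - L‖ ≤ ε * (2 * C + 4 * (C + 1) * (C + ‖L‖)) := by
  have h1 : ‖a * b - L‖ ≤ C * ε := by
    refine le_of_sq_le_sq ?_ (by positivity)
    rw [← norm_pow, ← e1, norm_mul, norm_mul, norm_pow, mul_pow]
    have := mul_le_mul hX hX' (norm_nonneg _) (by positivity)
    have h2 := pow_le_pow_left₀ (norm_nonneg _) hab 2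
    calc ‖X‖ * ‖X'‖ * ‖a - b‖ ^ 2 ≤ (C * C) * ε ^ 2 :=
          mul_le_mul this h2 (by positivity) (by positivity)
      _ = C ^ 2 * ε ^ 2 := by ring
  have h2 : ‖a * b - a - b + L‖ ≤ (C + 1) * ε := by
    refine le_of_sq_le_sq ?_ (by positivity)
    rw [← norm_pow, ← e2, norm_mul, norm_mul, norm_pow, mul_pow]
    have hX1 : ‖X - 1‖ ≤ C + 1 := (norm_sub_le _ _).trans (by rw [norm_one]; linarith)
    have hX1' : ‖X' - 1‖ ≤ C + 1 := (norm_sub_le _ _).trans (by rw [norm_one]; linarith)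
    have := mul_le_mul hX1 hX1' (norm_nonneg _) (by positivity)
    have h2 := pow_le_pow_left₀ (norm_nonneg _) hab 2
    calc ‖X - 1‖ * ‖X' - 1‖ * ‖a - b‖ ^ 2 ≤ ((C + 1) * (C + 1)) * ε ^ 2 :=
          mul_le_mul this h2 (by positivity) (by positivity)
      _ = (C + 1) ^ 2 * ε ^ 2 := by ring
  have h3 : ‖(2 : PadicAlgCl 2) * (a - L)‖ ≤ (2 * C + 2) * ε := by
    have e : (2 : PadicAlgCl 2) * (a - L) = (a * b - L) - (a * b - a - b + L) + (a - b) := by ring
    rw [e]
    refine (norm_add_le _ _).trans ?_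
    refine (add_le_add (norm_sub_le _ _) le_rfl).trans ?_
    linarith
  rw [norm_mul, two_norm] at h3
  have h4 : ‖a - L‖ ≤ 4 * (C + 1) * ε := by linarith
  have h5 : ‖a + L‖ ≤ C + ‖L‖ := (norm_add_le _ _).trans (by linarith)
  have e : L ^ 2 - L = (a * b - L) + a * (a - b) - (a - L) * (a + L) := by ring
  rw [e]
  refine (norm_sub_le _ _).trans ?_
  refine (add_le_add (norm_add_le _ _) le_rfl).trans ?_
  rw [norm_mul, norm_mul]
  have h6 := mul_le_mul ha hab (norm_nonneg _) (by positivity)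
  have h7 := mul_le_mul h4 h5 (norm_nonneg _) (by positivity)
  calc ‖a * b - L‖ + ‖a‖ * ‖a - b‖ + ‖a - L‖ * ‖a + L‖
      ≤ C * ε + C * ε + 4 * (C + 1) * ε * (C + ‖L‖) := by linarith
    _ = _ := by ring

theorem close_pt (ι : AlgebraicClosure ℚ →+* PadicAlgCl 2) (l : AlgebraicClosure ℚ) (h0 : l ≠ 0)
    (h1 : l ≠ 1) (Q : (leg l).toAffine.Point) (hQ : ∀ N : ℤ, N ≠ 0 → N • Q ≠ 0) (C : ℝ) :
    ∃ (n : ℕ) (x y : AlgebraicClosure ℚ) (h : (leg l).toAffine.Nonsingular x y),
      0 < n ∧ n • Q = .some x y h ∧ C < ‖ι x‖ := by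
  by_contra hcon
  push Not at hcon
  wlog hC : 1 ≤ C generalizing C
  · refine this (max C 1) (fun n x y h hn e => (hcon n x y h hn e).trans (le_max_left _ _))
      (le_max_right _ _)
  have hex : ∀ n : ℕ, ∃ (x y : AlgebraicClosure ℚ) (h : (leg l).toAffine.Nonsingular x y),
      (n + 1) • Q = .some x y h := by
    intro n
    have h2 : (n + 1) • Q ≠ 0 := by
      have := hQ ((n + 1 : ℕ) : ℤ) (by positivity)
      rwa [natCast_zsmul] at this
    rcases h3 : (n + 1) • Q with _ | ⟨x, y, h⟩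
    · exact absurd h3 h2
    · exact ⟨x, y, h, rfl⟩
  choose x y hns hxy using hex
  -- the field of definition
  set S : Finset (AlgebraicClosure ℚ) := {l, x 0, y 0} with hS
  set K : Subfield (AlgebraicClosure ℚ) := (FF ι S).toSubfield.comap ι with hK
  have hlK : l ∈ K := FF.mem ι (by rw [hS]; simp)
  have hx0 : x 0 ∈ K := FF.mem ι (by rw [hS]; simp)
  have hy0 : y 0 ∈ K := FF.mem ι (by rw [hS]; simp)
  have hall : ∀ n : ℕ, ∀ x' y' h, n • Q = .some x' y' h → x' ∈ K ∧ y' ∈ K := by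
    intro n
    induction n with
    | zero =>
      intro x' y' h e
      rw [zero_nsmul] at e
      exact absurd e.symm (Affine.Point.some_ne_zero h)
    | succ n ih =>
      rw [succ_nsmul]
      refine close_add K hlK _ _ ih ?_
      intro x' y' h e
      have h2 := hxy 0
      rw [zero_add, one_nsmul, e, Affine.Point.some.injEq] at h2
      rw [h2.1, h2.2]
      exact ⟨hx0, hy0⟩
  have hmem : ∀ n, ι (x n) ∈ FF ι S := fun n => (hall _ _ _ _ (hxy n)).1
  have hbd : ∀ n, ‖ι (x n)‖ ≤ C := fun n => hcon _ _ _ _ (Nat.succ_pos n) (hxy n)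
  have hinj : ∀ n m, n < m → x n ≠ x m := by
    intro n m hnm hx
    rw [Affine.Point.X_eq_iff (h₁ := hns n) (h₂ := hns m), ← hxy n, ← hxy m] at hx
    rcases hx with hx | hx
    · apply hQ ((m : ℤ) - n) (by omega)
      rw [sub_smul, natCast_zsmul, natCast_zsmul]
      rw [succ_nsmul, succ_nsmul] at hx
      rw [add_right_cancel hx, sub_self]
    · apply hQ ((m + 1 : ℕ) + (n + 1 : ℕ) : ℤ) (by positivity)
      rw [add_zsmul, natCast_zsmul, natCast_zsmul, hx]
      exact add_neg_cancel _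
  -- two close abscissas
  have hclose : ∀ ε : ℝ, 0 < ε → ∃ n m, n < m ∧ ‖ι (x m) - ι (x n)‖ < ε := by
    intro ε hε
    have : FiniteDimensional ℚ_[2] (FF ι S) := FF.fin ι S
    have hpr : ProperSpace (FF ι S) := FiniteDimensional.proper ℚ_[2] (FF ι S)
    set u : ℕ → FF ι S := fun n => ⟨ι (x n), hmem n⟩ with hu
    have hub : ∀ n, u n ∈ Metric.closedBall (0 : FF ι S) C := by
      intro n
      rw [mem_closedBall_zero_iff]
      exact hbd n
    obtain ⟨a, -, φ, hφ, hlim⟩ := (isCompact_closedBall (0 : FF ι S) C).tendsto_subseq hub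
    have hc := hlim.cauchySeq
    rw [Metric.cauchySeq_iff'] at hc
    obtain ⟨N, hN⟩ := hc ε hε
    refine ⟨φ N, φ (N + 1), hφ (Nat.lt_succ_self N), ?_⟩
    have h2 := hN (N + 1) (Nat.le_succ N)
    rw [dist_eq_norm] at h2
    exact h2
  -- the contradiction
  set L : PadicAlgCl 2 := ι l with hL
  have hLL : 0 < ‖L ^ 2 - L‖ := by
    rw [norm_pos_iff, hL, ← map_pow, ← map_sub, Ne, map_eq_zero]
    intro h
    have h2 : l * (l - 1) = 0 := by linear_combination h
    rcases mul_eq_zero.1 h2 with h3 | h3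
    · exact h0 h3
    · exact h1 (sub_eq_zero.1 h3)
  have hM : 0 < 2 * C + 4 * (C + 1) * (C + ‖L‖) := by positivity
  obtain ⟨n, m, hnm, hd⟩ := hclose (‖L ^ 2 - L‖ / (2 * (2 * C + 4 * (C + 1) * (C + ‖L‖))))
    (by positivity)
  obtain ⟨X, Y, h, X', Y', h', e1, e2, e3, e4⟩ :=
    close_sum h0 h1 (hns m) (hns n) (Ne.symm (hinj n m hnm))
  have hXC : ‖ι X‖ ≤ C := by
    refine hcon ((m + 1) + (n + 1)) X Y h (by omega) ?_
    rw [add_nsmul, hxy, hxy, e1]
  have hXC' : ‖ι X'‖ ≤ C := by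
    refine hcon (m - n) X' Y' h' (by omega) ?_
    rw [← e2, ← hxy, ← hxy, eq_sub_iff_add_eq, ← add_nsmul]
    congr 1
    omega
  have hfin := close_est (a := ι (x m)) (b := ι (x n)) (L := L) (X := ι X) (X' := ι X') hC
    (by positivity) (hbd m) hXC hXC' hd.le
    (by
      have := congrArg ι e3
      simpa only [map_mul, map_pow, map_sub] using this)
    (by
      have := congrArg ι e4
      simpa only [map_mul, map_pow, map_sub, map_add, map_one] using this)
  rw [div_mul_eq_mul_div, le_div_iff₀ (by positivity)] at hfin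
  nlinarith

end Pool.Agent.ZC
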