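import Pool.Agent.ZCInf.Defs

/-!
# Cycles supported on products of orthogonal groups are torsion
-/

set_option autoImplicit false

noncomputable section

namespace Pool.Agent.ZC

open Polynomial WeierstrassCurve
open scoped Classical

/-- the abstract form of the argument -/
private lemma cycle_abs {G₁ G₂ A : Type} [AddCommGroup G₁] [AddCommGroup G₂] [AddCommGroup A]
    (c : G₁ × G₂ → A)
    (h1 : ∀ (x y : G₁) (Q : G₂), (2 : ℕ) • (c (x + y, Q) - c (x, Q) - c (y, Q) + c (0, Q)) = 0)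
    (h2 : ∀ (P : G₁) (x y : G₂), (2 : ℕ) • (c (P, x + y) - c (P, x) - c (P, y) + c (P, 0)) = 0)
    (S : Set G₁) (S' : Set G₂)
    (hS : ∀ P ∈ S, ∀ Q ∈ S', (2 : ℕ) • (c (P, Q) - c (P, 0) - c (0, Q) + c (0, 0)) = 0)
    (s : Finset (G₁ × G₂)) (n : G₁ × G₂ → ℤ)
    (hz : ∀ p ∈ s, (∃ n : ℕ, 0 < n ∧ n • p.1 ∈ AddSubgroup.closure S) ∧
      ∃ n : ℕ, 0 < n ∧ n • p.2 ∈ AddSubgroup.closure S')
    (hd : ∑ p ∈ s, n p = 0) (hs1 : ∑ p ∈ s, n p • p.1 = 0) (hs2 : ∑ p ∈ s, n p • p.2 = 0) :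
    ∃ m : ℕ, 0 < m ∧ m • (∑ p ∈ s, n p • c p) = 0 := by
  -- the symbol
  let B : G₁ →+ (G₂ →+ A) := AddMonoidHom.mk'
    (fun P => AddMonoidHom.mk' (fun Q => (2 : ℕ) • (c (P, Q) - c (P, 0) - c (0, Q) + c (0, 0)))
      (by
        intro x y
        rw [← sub_eq_zero]
        have e1 := h2 P x y
        have e2 := h2 0 x y
        have e3 := sub_eq_zero.2 (e1.trans e2.symm)
        rw [← e3]
        abel))
    (by
      intro x y
      ext Q
      simp only [AddMonoidHom.mk'_apply, AddMonoidHom.add_apply]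
      rw [← sub_eq_zero]
      have e1 := h1 x y Q
      have e2 := h1 x y 0
      have e3 := sub_eq_zero.2 (e1.trans e2.symm)
      rw [← e3]
      abel)
  have hB : ∀ P Q, B P Q = (2 : ℕ) • (c (P, Q) - c (P, 0) - c (0, Q) + c (0, 0)) :=
    fun _ _ => rfl
  let β : G₁ →+ A := AddMonoidHom.mk' (fun P => (2 : ℕ) • (c (P, 0) - c (0, 0))) (by
    intro x y
    rw [← sub_eq_zero, ← h1 x y 0]
    abel)
  let γ : G₂ →+ A := AddMonoidHom.mk' (fun Q => (2 : ℕ) • (c (0, Q) - c (0, 0))) (by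
    intro x y
    rw [← sub_eq_zero, ← h2 0 x y]
    abel)
  have hβ : ∀ P, β P = (2 : ℕ) • (c (P, 0) - c (0, 0)) := fun _ => rfl
  have hγ : ∀ Q, γ Q = (2 : ℕ) • (c (0, Q) - c (0, 0)) := fun _ => rfl
  have hclos1 : ∀ P ∈ S, ∀ Q ∈ AddSubgroup.closure S', B P Q = 0 := by
    intro P hP
    have : AddSubgroup.closure S' ≤ (B P).ker := by
      rw [AddSubgroup.closure_le]
      intro Q hQ
      exact hS P hP Q hQ
    exact fun Q hQ => this hQ
  have hclos : ∀ P ∈ AddSubgroup.closure S, ∀ Q ∈ AddSubgroup.closure S', B P Q = 0 := by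
    intro P hP Q hQ
    have : AddSubgroup.closure S ≤ (B.flip Q).ker := by
      rw [AddSubgroup.closure_le]
      intro P hP
      exact hclos1 P hP Q hQ
    exact this hP
  have hex : ∀ p : G₁ × G₂, ∃ N : ℕ, 0 < N ∧ (p ∈ s → N • B p.1 p.2 = 0) := by
    intro p
    by_cases hp : p ∈ s
    · obtain ⟨⟨n1, hn1, hc1⟩, n2, hn2, hc2⟩ := hz p hp
      refine ⟨n1 * n2, Nat.mul_pos hn1 hn2, fun _ => ?_⟩
      have h3 := hclos _ hc1 _ hc2
      rw [map_nsmul, map_nsmul, AddMonoidHom.smul_apply] at h3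
      rw [mul_comm, mul_smul]
      exact h3
    · exact ⟨1, one_pos, fun h => absurd h hp⟩
  choose N hN0 hN using hex
  refine ⟨(∏ p ∈ s, N p) * 2, Nat.mul_pos (Finset.prod_pos fun p _ => hN0 p) two_pos, ?_⟩
  have h2c : ∀ p : G₁ × G₂, (2 : ℕ) • c p = B p.1 p.2 + β p.1 + γ p.2 + (2 : ℕ) • c (0, 0) := by
    intro p
    rw [hB, hβ, hγ]
    abel
  have hsum : (2 : ℕ) • (∑ p ∈ s, n p • c p) = ∑ p ∈ s, n p • B p.1 p.2 := by
    have e1 : (2 : ℕ) • (∑ p ∈ s, n p • c p) = ∑ p ∈ s, (n p • B p.1 p.2 + n p • β p.1 +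
        n p • γ p.2 + n p • ((2 : ℕ) • c (0, 0))) := by
      rw [Finset.smul_sum]
      apply Finset.sum_congr rfl
      intro p _
      rw [smul_comm, h2c, smul_add, smul_add, smul_add]
    have e2 : ∑ p ∈ s, n p • β p.1 = 0 := by
      have := congrArg β hs1
      rw [map_zero, map_sum] at this
      rw [← this]
      exact Finset.sum_congr rfl fun p _ => (map_zsmul β _ _).symm
    have e3 : ∑ p ∈ s, n p • γ p.2 = 0 := by
      have := congrArg γ hs2
      rw [map_zero, map_sum] at this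
      rw [← this]
      exact Finset.sum_congr rfl fun p _ => (map_zsmul γ _ _).symm
    have e4 : ∑ p ∈ s, n p • ((2 : ℕ) • c (0, 0)) = 0 := by
      rw [← Finset.sum_smul, hd, zero_smul]
    rw [e1, Finset.sum_add_distrib, Finset.sum_add_distrib, Finset.sum_add_distrib, e2, e3, e4]
    simp
  rw [mul_smul, hsum, Finset.smul_sum]
  apply Finset.sum_eq_zero
  intro p hp
  rw [smul_comm]
  obtain ⟨r, hr⟩ := Finset.dvd_prod_of_mem N hp
  rw [hr, mul_comm, mul_smul, hN p hp, smul_zero, smul_zero]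

theorem cycle_tors {k : Type} [Field k] {W₁ W₂ : WeierstrassCurve k}
    (h1 : ∀ (x y : W₁.toAffine.Point) (Q : W₂.toAffine.Point),
      (2 : ℕ) • (Finsupp.single (x + y, Q) (1 : ℤ) - Finsupp.single (x, Q) 1 -
        Finsupp.single (y, Q) 1 + Finsupp.single (0, Q) 1) ∈ RatEq W₁ W₂)
    (h2 : ∀ (P : W₁.toAffine.Point) (x y : W₂.toAffine.Point),
      (2 : ℕ) • (Finsupp.single (P, x + y) (1 : ℤ) - Finsupp.single (P, x) 1 -
        Finsupp.single (P, y) 1 + Finsupp.single (P, 0) 1) ∈ RatEq W₁ W₂)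
    (S : Set W₁.toAffine.Point) (S' : Set W₂.toAffine.Point)
    (hS : ∀ P ∈ S, ∀ Q ∈ S', (2 : ℕ) • sym P Q ∈ RatEq W₁ W₂) (z : Z0 W₁ W₂)
    (hz : ∀ p ∈ z.support, (∃ n : ℕ, 0 < n ∧ n • p.1 ∈ AddSubgroup.closure S) ∧
      ∃ n : ℕ, 0 < n ∧ n • p.2 ∈ AddSubgroup.closure S')
    (hd : z.sum (fun _ n => n) = 0) (hs1 : z.sum (fun p n => n • p.1) = 0)
    (hs2 : z.sum (fun p n => n • p.2) = 0) : ∃ m : ℕ, 0 < m ∧ m • z ∈ RatEq W₁ W₂ := by
  let π : Z0 W₁ W₂ →+ CH0 W₁ W₂ := QuotientAddGroup.mk' (RatEq W₁ W₂)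
  have hπ : ∀ z, π z = 0 ↔ z ∈ RatEq W₁ W₂ := fun z => QuotientAddGroup.eq_zero_iff z
  obtain ⟨m, hm, hmz⟩ := cycle_abs (fun p => π (Finsupp.single p (1 : ℤ)))
    (fun x y Q => by
      have := (hπ _).2 (h1 x y Q)
      rw [map_nsmul, map_add, map_sub, map_sub] at this
      exact this)
    (fun P x y => by
      have := (hπ _).2 (h2 P x y)
      rw [map_nsmul, map_add, map_sub, map_sub] at this
      exact this)
    S S' (fun P hP Q hQ => by
      have := (hπ _).2 (hS P hP Q hQ)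
      unfold sym at this
      rw [map_nsmul, map_add, map_sub, map_sub] at this
      exact this)
    z.support z hz hd hs1 hs2
  refine ⟨m, hm, ?_⟩
  rw [← hπ, map_nsmul]
  have e : π z = ∑ p ∈ z.support, z p • π (Finsupp.single p (1 : ℤ)) := by
    conv_lhs => rw [← Finsupp.sum_single z]
    rw [Finsupp.sum, map_sum]
    apply Finset.sum_congr rfl
    intro p _
    rw [← map_zsmul]
    congr 1
    rw [Finsupp.smul_single, smul_eq_mul, mul_one]
  rw [e]
  exact hmz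

end Pool.Agent.ZC
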