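import Pool.Agent.ZC.Leg
import Pool.Agent.ZC.Push
import Pool.Agent.ZC.NonTor

/-!
# Definitions for the construction of infinite families of orthogonal points
-/

set_option autoImplicit false

noncomputable section

namespace Pool.Agent.ZC

open Polynomial WeierstrassCurve
open scoped Classical

/-- The points of the curve `E` which are images, under a morphism of curves which maps the origin
to the origin, of a point with abscissa `u` (and ordinate `≠ 0`) of some Legendre curve. -/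
def SetE (E : WeierstrassCurve (AlgebraicClosure ℚ)) (u : AlgebraicClosure ℚ) :
    Set E.toAffine.Point :=
  {a | ∃ (L y : AlgebraicClosure ℚ) (h : (leg L).toAffine.Nonsingular u y)
      (G : (leg L).toAffine.Point → E.toAffine.Point),
      L ≠ 0 ∧ L ≠ 1 ∧ y ≠ 0 ∧ Lift G ∧ G 0 = 0 ∧ a = G (.some u y h)}

/-- A node of the tree of `2`-isogenies above the Legendre curve `leg l`. -/
structure Node (ι : AlgebraicClosure ℚ →+* PadicAlgCl 2) (l L : AlgebraicClosure ℚ)
    (G : (leg L).toAffine.Point → (leg l).toAffine.Point) (S : Finset (AlgebraicClosure ℚ)) :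
    Prop where
  lift : Lift G
  zero : G 0 = 0
  neg : ∀ P, G (-P) = -G P
  meml : l ∈ S
  memL : L ∈ S
  nrm : ‖ι L‖ = 1
  ne1 : L ≠ 1
  ntor : ∀ x y h, x ≠ 1 → ‖ι (1 - x)‖ < ‖ι (1 - L)‖ → ∀ N : ℤ, N ≠ 0 → N • G (.some x y h) ≠ 0
  gal : ∀ σ : AlgebraicClosure ℚ ≃ₐ[ℚ] AlgebraicClosure ℚ, (∀ s ∈ S, σ s = s) →
    ∀ T : (leg l).toAffine.Point →+ (leg l).toAffine.Point,
      (∀ x y h, ∃ h', T (.some x y h) = .some (σ x) (σ y) h') →
      ∀ x y h, x ≠ 1 → ‖ι (1 - x)‖ < ‖ι (1 - L)‖ →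
        ∀ h', T (G (.some x y h)) = G (.some (σ x) (σ y) h')

theorem Node.mono {ι : AlgebraicClosure ℚ →+* PadicAlgCl 2} {l L : AlgebraicClosure ℚ}
    {G : (leg L).toAffine.Point → (leg l).toAffine.Point} {S S' : Finset (AlgebraicClosure ℚ)}
    (h : Node ι l L G S) (hS : S ⊆ S') : Node ι l L G S' :=
  ⟨h.lift, h.zero, h.neg, hS h.meml, hS h.memL, h.nrm, h.ne1, h.ntor,
    fun σ hσ T hT => h.gal σ (fun s hs => hσ s (hS hs)) T hT⟩

/-- The parameter `L` is in the attracting annulus of the tree. -/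
def InR (ι : AlgebraicClosure ℚ →+* PadicAlgCl 2) (L : AlgebraicClosure ℚ) : Prop :=
  1 / 32 < ‖ι (1 - L)‖ ∧ ‖ι (1 - L)‖ < 1 / 8

/-- The extension of `ℚ₂` generated by `ι S`. -/
def FF (ι : AlgebraicClosure ℚ →+* PadicAlgCl 2) (S : Finset (AlgebraicClosure ℚ)) :
    IntermediateField ℚ_[2] (PadicAlgCl 2) :=
  IntermediateField.adjoin ℚ_[2] (ι '' (S : Set (AlgebraicClosure ℚ)))

theorem FF.mono (ι : AlgebraicClosure ℚ →+* PadicAlgCl 2) {S S' : Finset (AlgebraicClosure ℚ)}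
    (h : S ⊆ S') : FF ι S ≤ FF ι S' :=
  IntermediateField.adjoin.mono _ _ _ (Set.image_mono (by exact_mod_cast h))

theorem FF.mem (ι : AlgebraicClosure ℚ →+* PadicAlgCl 2) {S : Finset (AlgebraicClosure ℚ)}
    {s : AlgebraicClosure ℚ} (h : s ∈ S) : ι s ∈ FF ι S :=
  IntermediateField.subset_adjoin _ _ ⟨s, by exact_mod_cast h, rfl⟩

theorem FF.le (ι : AlgebraicClosure ℚ →+* PadicAlgCl 2) {S : Finset (AlgebraicClosure ℚ)}
    {F : IntermediateField ℚ_[2] (PadicAlgCl 2)} (h : ∀ s ∈ S, ι s ∈ F) : FF ι S ≤ F := by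
  refine IntermediateField.adjoin_le_iff.2 ?_
  rintro _ ⟨s, hs, rfl⟩
  exact h s (by exact_mod_cast hs)

theorem FF.fin (ι : AlgebraicClosure ℚ →+* PadicAlgCl 2) (S : Finset (AlgebraicClosure ℚ)) :
    FiniteDimensional ℚ_[2] (FF ι S) := by
  have : Finite (ι '' (S : Set (AlgebraicClosure ℚ))) :=
    Set.Finite.to_subtype ((Finset.finite_toSet S).image ι)
  exact IntermediateField.finiteDimensional_adjoin fun x _ => by
    have : Algebra.IsAlgebraic ℚ_[2] (PadicAlgCl 2) := AlgebraicClosure.isAlgebraic ℚ_[2]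
    exact (this.isAlgebraic x).isIntegral

end Pool.Agent.ZC
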