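import Pool.Agent.ZCInf.Defs

set_option autoImplicit false

noncomputable section

namespace Pool.Agent.ZC

open Polynomial WeierstrassCurve
open scoped Classical

/-- the norm of an element of `PadicAlgCl 2` is an attained root of the norm of a coefficient -/
private lemma disc_att (x : PadicAlgCl 2) (hx : x ≠ 0) :
    ∃ (n : ℕ) (a : ℚ_[2]), n < (minpoly ℚ_[2] x).natDegree ∧
      ‖x‖ ^ ((minpoly ℚ_[2] x).natDegree - n) = ‖a‖ := by
  have hmem : spectralValue (minpoly ℚ_[2] x) ∈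
      Set.range (spectralValueTerms (minpoly ℚ_[2] x)) :=
    Set.Nonempty.csSup_mem (Set.range_nonempty _) (spectralValueTerms_finite_range _)
  obtain ⟨n, hn⟩ := hmem
  have hxn : ‖x‖ = spectralValueTerms (minpoly ℚ_[2] x) n := by
    rw [hn]
    rfl
  have hpos : 0 < ‖x‖ := norm_pos_iff.2 hx
  by_cases hlt : n < (minpoly ℚ_[2] x).natDegree
  · refine ⟨n, (minpoly ℚ_[2] x).coeff n, hlt, ?_⟩
    rw [hxn, spectralValueTerms_of_lt_natDegree _ hlt, ← Real.rpow_natCast, ← Real.rpow_mul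
      (norm_nonneg _), Nat.cast_sub hlt.le, one_div, inv_mul_cancel₀, Real.rpow_one]
    have h4 : (n : ℝ) < ((minpoly ℚ_[2] x).natDegree : ℝ) := by exact_mod_cast hlt
    exact (sub_pos.2 h4).ne'
  · rw [spectralValueTerms_of_natDegree_le _ (not_lt.1 hlt)] at hxn
    exact absurd hxn hpos.ne'

/-- the values of the norm on a finite extension of `ℚ₂` are discrete -/
theorem disc (F : IntermediateField ℚ_[2] (PadicAlgCl 2)) [FiniteDimensional ℚ_[2] F] :
    ∃ d : ℕ, 0 < d ∧ ∀ x ∈ F, ‖x‖ < 1 → ‖x‖ ^ d ≤ 1 / 2 := by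
  refine ⟨Module.finrank ℚ_[2] F, Module.finrank_pos, ?_⟩
  intro x hxF hx1
  by_cases hx : x = 0
  · subst hx
    rw [norm_zero, zero_pow (Module.finrank_pos (R := ℚ_[2]) (M := F)).ne']
    norm_num
  obtain ⟨n, a, hn, ha⟩ := disc_att x hx
  have hpos : 0 < ‖x‖ := norm_pos_iff.2 hx
  have hdeg : (minpoly ℚ_[2] x).natDegree ≤ Module.finrank ℚ_[2] F := by
    have h1 : minpoly ℚ_[2] x = minpoly ℚ_[2] (⟨x, hxF⟩ : F) :=
      (minpoly.algebraMap_eq (B' := PadicAlgCl 2) (algebraMap F (PadicAlgCl 2)).injective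
        (⟨x, hxF⟩ : F))
    rw [h1]
    exact minpoly.natDegree_le _
  have hle : ‖x‖ ^ Module.finrank ℚ_[2] F ≤ ‖x‖ ^ ((minpoly ℚ_[2] x).natDegree - n) :=
    pow_le_pow_of_le_one hpos.le hx1.le (by omega)
  refine hle.trans ?_
  have hlt1 : ‖x‖ ^ ((minpoly ℚ_[2] x).natDegree - n) < 1 :=
    pow_lt_one₀ hpos.le hx1 (by omega)
  rw [ha] at hlt1 ⊢
  have ha0 : a ≠ 0 := by
    rintro rfl
    rw [norm_zero] at ha
    exact (pow_pos hpos _).ne' ha
  have h2 : ‖a‖ = ((2 : ℕ) : ℝ) ^ (-a.valuation) := Padic.norm_eq_zpow_neg_valuation ha0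
  have h3 := (Padic.norm_le_pow_iff_norm_lt_pow_add_one a (-1)).2 (by simpa using hlt1)
  simpa using h3

end Pool.Agent.ZC
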