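import Pool.Agent.ZCInf.Defs
import Pool.Agent.ZC.Near

/-!
# The starting point of the tree

Every point of a Legendre curve whose parameter is a `2`-adic unit has a multiple which is a
combination of points with abscissa `2`-adically close to `1`.
-/

set_option autoImplicit false

noncomputable section

namespace Pool.Agent.ZC

open Polynomial WeierstrassCurve
open scoped Classical

private theorem start_two_norm (ι : AlgebraicClosure ℚ →+* PadicAlgCl 2) :
    ‖ι 2‖ = 1 / 2 := by
  rw [map_ofNat]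
  exact two_norm

private theorem start_tors {l : AlgebraicClosure ℚ} (h0 : l ≠ 0) (h1 : l ≠ 1) :
    (leg l).toAffine.Nonsingular 1 0 := by
  rw [(IsLeg.leg h0 h1).nonsingular]
  ring

private theorem start_two_tors {l : AlgebraicClosure ℚ} (h0 : l ≠ 0) (h1 : l ≠ 1)
    {x : AlgebraicClosure ℚ} (h : (leg l).toAffine.Nonsingular x 0) :
    (2 : ℕ) • (Affine.Point.some x 0 h : (leg l).toAffine.Point) = 0 := by
  have hleg : IsLeg (leg l) l := IsLeg.leg h0 h1
  rw [two_nsmul]
  refine Affine.Point.add_of_Y_eq rfl ?_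
  rw [Affine.negY, hleg.a₁, hleg.a₃]
  ring

private theorem start_add {l : AlgebraicClosure ℚ} (h0 : l ≠ 0) (h1 : l ≠ 1)
    {x y : AlgebraicClosure ℚ} (h : (leg l).toAffine.Nonsingular x y) (hx : x ≠ 1) :
    ∃ Y3 h3, (Affine.Point.some x y h : (leg l).toAffine.Point) +
      .some 1 0 (start_tors h0 h1) = .some ((x - l) / (x - 1)) Y3 h3 := by
  have hW : IsLeg (leg l) l := IsLeg.leg h0 h1
  have h' := start_tors h0 h1
  have hx1 : x - 1 ≠ 0 := sub_ne_zero.2 hx
  have hy : y ^ 2 = x * (x - 1) * (x - l) := (hW.nonsingular x y).1 h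
  have e1 : (leg l).toAffine.slope x 1 y 0 = (y - 0) / (x - 1) := Affine.slope_of_X_ne hx
  have e2 : (leg l).toAffine.addX x 1 ((leg l).toAffine.slope x 1 y 0) =
      (x - l) / (x - 1) := by
    rw [e1, Affine.addX, hW.a₁, hW.a₂, sub_zero, div_pow, hy]
    field_simp
    ring
  have h4 := Affine.Point.add_some (h₁ := h) (h₂ := h') (fun hh => hx hh.1)
  have h5 := Affine.nonsingular_add h h' (fun hh => hx hh.1)
  rw [e2] at h5
  refine ⟨_, h5, ?_⟩
  rw [h4]
  congr 1

private theorem start_lift_id {k : Type} [Field k] (W : WeierstrassCurve k) :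
    Lift (fun P : W.toAffine.Point => P) := by
  intro F _ _ a
  exact ⟨a, fun O _ p hp => hp⟩

theorem exists_start (ι : AlgebraicClosure ℚ →+* PadicAlgCl 2) (l : AlgebraicClosure ℚ)
    (hl : ‖ι l‖ = 1) (h1 : l ≠ 1) (Q : (leg l).toAffine.Point) :
    ∃ (u : AlgebraicClosure ℚ) (N : ℕ), u ≠ 1 ∧ ‖ι (1 - u)‖ < 1 / 256 ∧ 0 < N ∧
      N • Q ∈ AddSubgroup.closure (SetE (leg l) u) := by
  have h0 : l ≠ 0 := by
    rintro rfl
    rw [map_zero, norm_zero] at hl
    norm_num at hl
  by_cases hQ : ∃ N : ℤ, N ≠ 0 ∧ N • Q = 0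
  · obtain ⟨N, hN, hNQ⟩ := hQ
    refine ⟨1 + 2 ^ 9, N.natAbs, ?_, ?_, Int.natAbs_pos.2 hN, ?_⟩
    · intro h
      have h2 : (2 : AlgebraicClosure ℚ) ^ 9 = 0 := by linear_combination h
      exact pow_ne_zero 9 two_ne_zero h2
    · have e : (1 : AlgebraicClosure ℚ) - (1 + 2 ^ 9) = -2 ^ 9 := by ring
      rw [e, map_neg, norm_neg, map_pow, norm_pow, start_two_norm]
      norm_num
    · have e : N.natAbs • Q = 0 := by
        rcases Int.natAbs_eq N with h | h
        · rw [h, natCast_zsmul] at hNQ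
          exact hNQ
        · rw [h, neg_smul, natCast_zsmul, neg_eq_zero] at hNQ
          exact hNQ
      rw [e]
      exact AddSubgroup.zero_mem _
  · push Not at hQ
    obtain ⟨n, hn, X, Y, h, hnQ, hX⟩ := exists_near ι h0 h1 Q hQ (2 ^ 9)
    have hX1 : X ≠ 1 := by
      rintro rfl
      rw [map_one, norm_one] at hX
      norm_num at hX
    obtain ⟨y0, h3, hadd⟩ := start_add h0 h1 h hX1
    have hX1' : X - 1 ≠ 0 := sub_ne_zero.2 hX1
    have hl1' : 1 - l ≠ 0 := sub_ne_zero.2 (Ne.symm h1)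
    have hu : 1 - (X - l) / (X - 1) = -((1 - l) / (X - 1)) := by
      field_simp
      ring
    have hX' : ‖ι (X - 1)‖ = ‖ι X‖ := by
      rw [map_sub, map_one]
      refine norm_sub_eq_of_lt ?_
      rw [norm_one]
      exact lt_trans (by norm_num) hX
    have hl' : ‖ι (1 - l)‖ ≤ 1 := by
      rw [map_sub, map_one, sub_eq_add_neg]
      refine (IsUltrametricDist.norm_add_le_max _ _).trans ?_
      rw [norm_neg, norm_one, hl, max_self]
    refine ⟨(X - l) / (X - 1), 2 * n, ?_, ?_, by omega, ?_⟩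
    · intro h2
      rw [h2, sub_self] at hu
      exact div_ne_zero hl1' hX1' (neg_eq_zero.1 hu.symm)
    · rw [hu, map_neg, norm_neg, map_div₀, norm_div, hX']
      have hXpos : 0 < ‖ι X‖ := lt_trans (by norm_num) hX
      rw [div_lt_iff₀ hXpos]
      have : (2 : ℝ) ^ 9 = 512 := by norm_num
      rw [this] at hX
      linarith
    · have hT := start_two_tors h0 h1 (start_tors h0 h1)
      have h2 : (2 * n) • Q = (2 : ℕ) • (Affine.Point.some ((X - l) / (X - 1)) y0 h3 :
          (leg l).toAffine.Point) := by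
        rw [← hadd, nsmul_add, hT, add_zero, ← hnQ, mul_comm, mul_nsmul]
      have hy0 : y0 ≠ 0 := by
        rintro rfl
        rw [start_two_tors h0 h1 h3] at h2
        apply hQ ((2 * n : ℕ) : ℤ) (by exact_mod_cast (by omega : 2 * n ≠ 0))
        rw [natCast_zsmul]
        exact h2
      rw [h2]
      refine AddSubgroup.nsmul_mem _ (AddSubgroup.subset_closure ?_) 2
      exact ⟨l, y0, h3, fun P => P, h0, h1, hy0, start_lift_id _, rfl, rfl⟩

end Pool.Agent.ZC
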