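import Pool.Agent.ZCInf.Many
import Pool.Agent.ZCInf.Start
import Pool.Agent.ZCInf.Bil2
import Pool.Agent.ZC.Iso2
import Pool.Agent.ZC.Rel
import Pool.Agent.ZCInf.Cycle2

set_option autoImplicit false

noncomputable section

namespace Pool.Agent.ZC

open Polynomial WeierstrassCurve
open scoped Classical

theorem exists_iota : ∃ _ : AlgebraicClosure ℚ →+* PadicAlgCl 2, True := by
  have h1 : Algebra.IsAlgebraic ℚ (AlgebraicClosure ℚ) := AlgebraicClosure.isAlgebraic ℚ
  have h2 : IsAlgClosed (PadicAlgCl 2) := inferInstanceAs (IsAlgClosed (AlgebraicClosure ℚ_[2]))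
  have : Nonempty (AlgebraicClosure ℚ →ₐ[ℚ] PadicAlgCl 2) := ⟨IsAlgClosed.lift⟩
  obtain ⟨f⟩ := this
  exact ⟨f.toRingHom, trivial⟩

/-- images of `SetE` -/
theorem SetE.image {E E' : WeierstrassCurve (AlgebraicClosure ℚ)} {u : AlgebraicClosure ℚ}
    {φ : E.toAffine.Point → E'.toAffine.Point} (hφ : Lift φ) (h0 : φ 0 = 0)
    {a : E.toAffine.Point} (ha : a ∈ SetE E u) : φ a ∈ SetE E' u := by
  obtain ⟨L, y, h, G, hL0, hL1, hy, hG, hG0, rfl⟩ := ha
  exact ⟨L, y, h, fun P => φ (G P), hL0, hL1, hy, hφ.comp hG, (congrArg φ hG0).trans h0, rfl⟩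

theorem SetE.sym {E E' : WeierstrassCurve (AlgebraicClosure ℚ)} {u : AlgebraicClosure ℚ}
    {a : E.toAffine.Point} (ha : a ∈ SetE E u) {b : E'.toAffine.Point} (hb : b ∈ SetE E' u) :
    (2 : ℕ) • ZC.sym a b ∈ RatEq E E' := by
  obtain ⟨L, y, h, G, hL0, hL1, hy, hG, hG0, rfl⟩ := ha
  obtain ⟨L', y', h', G', hL0', hL1', hy', hG', hG0', rfl⟩ := hb
  have h2 := two_sym hL0 hL1 hL0' hL1' u y y' hy hy' h h'
  have h3 := RatEq.push hG hG' h2
  have e : Finsupp.mapDomain (Prod.map G G') ((2 : ℕ) • ZC.sym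
      (Affine.Point.some u y h : (leg L).toAffine.Point)
      (Affine.Point.some u y' h' : (leg L').toAffine.Point)) =
      (2 : ℕ) • Finsupp.mapDomain (Prod.map G G') (ZC.sym
      (Affine.Point.some u y h : (leg L).toAffine.Point)
      (Affine.Point.some u y' h' : (leg L').toAffine.Point)) := by
    simp only [← Finsupp.mapDomain.addMonoidHom_apply]
    rw [map_nsmul]
  rw [e, sym_push hG0 hG0'] at h3
  exact h3

/-- additivity in the first variable -/
theorem two_add_left {E : WeierstrassCurve (AlgebraicClosure ℚ)} [E.IsElliptic]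
    (E' : WeierstrassCurve (AlgebraicClosure ℚ)) (x y : E.toAffine.Point)
    (Q : E'.toAffine.Point) :
    (2 : ℕ) • (Finsupp.single (x + y, Q) (1 : ℤ) - Finsupp.single (x, Q) 1 -
      Finsupp.single (y, Q) 1 + Finsupp.single (0, Q) 1) ∈ RatEq E E' := by
  obtain ⟨ι, -⟩ := exists_iota
  obtain ⟨l, hl0, hl1, -, -, φ, hφ, hL⟩ := exists_leg2 ι E
  obtain ⟨x, rfl⟩ := hφ.2 x
  obtain ⟨y, rfl⟩ := hφ.2 y
  have h := RatEq.push hL (Lift.id (W := E')) (two_add hl0 hl1 E' x y Q)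
  convert h using 1
  simp only [← Finsupp.mapDomain.addMonoidHom_apply]
  rw [map_nsmul, map_add, map_sub, map_sub]
  simp only [Finsupp.mapDomain.addMonoidHom_apply, Finsupp.mapDomain_single, Prod.map_apply,
    map_add, map_zero]

theorem two_add_right (E : WeierstrassCurve (AlgebraicClosure ℚ))
    {E' : WeierstrassCurve (AlgebraicClosure ℚ)} [E'.IsElliptic] (P : E.toAffine.Point)
    (x y : E'.toAffine.Point) :
    (2 : ℕ) • (Finsupp.single (P, x + y) (1 : ℤ) - Finsupp.single (P, x) 1 -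
      Finsupp.single (P, y) 1 + Finsupp.single (P, 0) 1) ∈ RatEq E E' := by
  have h := RatEq.swap (two_add_left E x y P)
  convert h using 1
  simp only [← Finsupp.mapDomain.addMonoidHom_apply]
  rw [map_nsmul, map_add, map_sub, map_sub]
  simp only [Finsupp.mapDomain.addMonoidHom_apply, Finsupp.mapDomain_single, Prod.swap_prod_mk]

/-- Zero-cycles on products of two elliptic curves over `ℚ̄`. -/
theorem result_aux (E₀ : WeierstrassCurve (AlgebraicClosure ℚ)) [E₀.IsElliptic]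
    (P₀ : E₀.toAffine.Point) :
    ∃ G : (E : WeierstrassCurve (AlgebraicClosure ℚ)) → AddSubgroup E.toAffine.Point,
      (∃ n : ℕ, 0 < n ∧ n • P₀ ∈ G E₀) ∧
      (∀ (E E' : WeierstrassCurve (AlgebraicClosure ℚ))
        (φ : E.toAffine.Point →+ E'.toAffine.Point), Lift (fun P => φ P) →
        ∀ a ∈ G E, φ a ∈ G E') ∧
      (∀ (E : WeierstrassCurve (AlgebraicClosure ℚ)) [E.IsElliptic],
        ∃ P : ℕ → E.toAffine.Point, LinearIndependent ℤ P ∧ ∀ i, P i ∈ G E) ∧
      ∀ (E E' : WeierstrassCurve (AlgebraicClosure ℚ)) [E.IsElliptic] [E'.IsElliptic]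
        (z : Z0 E E') (n n' : ℕ), (∀ p ∈ z.support, n • p.1 ∈ G E ∧ n' • p.2 ∈ G E') →
        z.sum (fun _ m => m) = 0 → z.sum (fun p m => m • p.1) = 0 →
        z.sum (fun p m => m • p.2) = 0 → (2 * n * n') • z ∈ RatEq E E' := by
  obtain ⟨ι, -⟩ := exists_iota
  obtain ⟨l₀, hl0, hl1, hl, -, φ₀, hφ₀, hL₀⟩ := exists_leg2 ι E₀
  obtain ⟨Q₀, rfl⟩ := hφ₀.2 P₀
  obtain ⟨u, N, hu1, hu, hN, hQ⟩ := exists_start ι l₀ hl hl1 Q₀
  have himg : ∀ (E E' : WeierstrassCurve (AlgebraicClosure ℚ))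
      (φ : E.toAffine.Point →+ E'.toAffine.Point), Lift (fun P => φ P) →
      ∀ a ∈ AddSubgroup.closure (SetE E u), φ a ∈ AddSubgroup.closure (SetE E' u) := by
    intro E E' φ hφ a ha
    have hle : AddSubgroup.closure (SetE E u) ≤
        (AddSubgroup.closure (SetE E' u)).comap φ := by
      rw [AddSubgroup.closure_le]
      intro b hb
      exact AddSubgroup.subset_closure (SetE.image hφ (map_zero φ) hb)
    exact hle ha
  refine ⟨fun E => AddSubgroup.closure (SetE E u), ⟨N, hN, ?_⟩, himg, ?_, ?_⟩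
  · rw [← map_nsmul]
    exact himg _ _ φ₀ hL₀ _ hQ
  · intro E _
    obtain ⟨l, _, hl1, hl, -, φ, hφ, hL⟩ := exists_leg2 ι E
    obtain ⟨P, hP, hPS⟩ := many ι l u hl hl1 hu1 hu
    refine ⟨fun i => φ (P i), hP.map_injOn φ.toIntLinearMap (fun a _ b _ h => hφ.1 h),
      fun i => AddSubgroup.subset_closure (SetE.image hL (map_zero φ) (hPS i))⟩
  · intro E E' _ _ z n n' hz hd hs1 hs2
    exact cycle_two (two_add_left E') (two_add_right E) (SetE E u) (SetE E' u)
      (fun P hP Q hQ => SetE.sym hP hQ) z n n' hz hd hs1 hs2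

end Pool.Agent.ZC
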