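import Pool.Agent.ZCInf.Defs

/-!
# Automorphisms which change the sign of a square root
-/

set_option autoImplicit false

noncomputable section

namespace Pool.Agent.ZC

open Polynomial WeierstrassCurve
open scoped Classical

theorem gal_flip (ι : AlgebraicClosure ℚ →+* PadicAlgCl 2) (S : Finset (AlgebraicClosure ℚ))
    (y : AlgebraicClosure ℚ)
    (h2 : y ^ 2 ∈ IntermediateField.adjoin ℚ (S : Set (AlgebraicClosure ℚ)))
    (hy : ι y ∉ FF ι S) : ∃ σ : AlgebraicClosure ℚ ≃ₐ[ℚ] AlgebraicClosure ℚ,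
      (∀ s ∈ S, σ s = s) ∧ σ y = -y := by
  have hle : ∀ x ∈ IntermediateField.adjoin ℚ (S : Set (AlgebraicClosure ℚ)), ι x ∈ FF ι S := by
    intro x hx
    induction hx using IntermediateField.adjoin_induction with
    | mem s hs => exact FF.mem ι (by exact_mod_cast hs)
    | algebraMap q =>
      rw [eq_ratCast, map_ratCast]
      exact SubfieldClass.ratCast_mem (FF ι S) q
    | add a b _ _ ha hb => rw [map_add]; exact add_mem ha hb
    | inv a _ ha => rw [map_inv₀]; exact inv_mem ha
    | mul a b _ _ ha hb => rw [map_mul]; exact mul_mem ha hb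
  have hyM : y ∉ IntermediateField.adjoin ℚ (S : Set (AlgebraicClosure ℚ)) :=
    fun h => hy (hle y h)
  have hgal : IsGalois ℚ (AlgebraicClosure ℚ) := by
    have h : IsAlgClosure ℚ (AlgebraicClosure ℚ) :=
      ⟨inferInstance, AlgebraicClosure.isAlgebraic ℚ⟩
    exact IsAlgClosure.isGalois ℚ (AlgebraicClosure ℚ)
  have h3 : ∃ σ : AlgebraicClosure ℚ ≃ₐ[ℚ] AlgebraicClosure ℚ,
      σ ∈ (IntermediateField.adjoin ℚ (S : Set (AlgebraicClosure ℚ))).fixingSubgroup ∧
        σ y ≠ y := by
    by_contra h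
    push Not at h
    apply hyM
    rw [← InfiniteGalois.fixedField_fixingSubgroup
      (IntermediateField.adjoin ℚ (S : Set (AlgebraicClosure ℚ)))]
    rw [IntermediateField.mem_fixedField_iff]
    exact h
  obtain ⟨σ, hσ, hσy⟩ := h3
  rw [IntermediateField.mem_fixingSubgroup_iff] at hσ
  refine ⟨σ, fun s hs => hσ s (IntermediateField.subset_adjoin _ _ (by exact_mod_cast hs)), ?_⟩
  have h4 : (σ y) ^ 2 = y ^ 2 := by
    rw [← map_pow]
    exact hσ _ h2
  rcases sq_eq_sq_iff_eq_or_eq_neg.mp h4 with h | h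
  · exact absurd h hσy
  · exact h

end Pool.Agent.ZC
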