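import Mathlib

set_option autoImplicit false

noncomputable section

namespace Pool.Agent.ZC

/-- linear independence of a sequence from triangular signs -/
theorem linInd2 {V : Type} [AddCommGroup V] (P : ℕ → V)
    (hP : ∀ (a : ℕ) (N : ℤ), N ≠ 0 → N • P a ≠ 0)
    (h : ∀ b : ℕ, ∃ T : V →+ V, (∀ c < b, T (P c) = P c) ∧ T (P b) = -P b) :
    LinearIndependent ℤ P := by
  rw [linearIndependent_iff]
  intro l hl
  by_contra hne
  have hs : l.support.Nonempty := Finsupp.support_nonempty_iff.mpr hne
  set b := l.support.max' hs with hb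
  have hbs : b ∈ l.support := l.support.max'_mem hs
  have hlb : l b ≠ 0 := Finsupp.mem_support_iff.mp hbs
  obtain ⟨T, hT1, hT2⟩ := h b
  rw [Finsupp.linearCombination_apply, Finsupp.sum,
    ← Finset.add_sum_erase _ _ hbs] at hl
  have hr : ∀ i ∈ l.support.erase b, T (P i) = P i := by
    intro i hi
    refine hT1 i (lt_of_le_of_ne (l.support.le_max' i (Finset.mem_of_mem_erase hi)) ?_)
    exact Finset.ne_of_mem_erase hi
  have h2 : T (l b • P b + ∑ i ∈ l.support.erase b, l i • P i) = 0 := by rw [hl, map_zero]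
  rw [map_add, map_zsmul, hT2, map_sum, Finset.sum_congr rfl (fun i hi => by
    rw [map_zsmul, hr i hi])] at h2
  refine hP b (2 * l b) (mul_ne_zero two_ne_zero hlb) ?_
  rw [mul_smul, two_smul]
  have h3 : l b • P b = l b • -P b := by
    have := hl.trans h2.symm
    exact add_right_cancel this
  rw [smul_neg] at h3
  nth_rewrite 1 [h3]
  exact neg_add_cancel _

end Pool.Agent.ZC
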