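import Pool.Agent.ZCInf.Disc

/-!
# No stable set in the annulus
-/

set_option autoImplicit false

noncomputable section

namespace Pool.Agent.ZC

open Polynomial WeierstrassCurve
open scoped Classical

private lemma l2_two : ‖(2 : PadicAlgCl 2)‖ = 1 / 2 := by
  have h := PadicAlgCl.norm_extends 2 (2 : ℚ_[2])
  have h1 : ((2 : ℚ_[2]) : PadicAlgCl 2) = 2 := by
    change algebraMap ℚ_[2] (PadicAlgCl 2) 2 = 2
    exact map_ofNat _ 2
  rw [h1] at h
  rw [h]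
  have := Padic.norm_p (p := 2)
  simpa using this

private lemma l2_add {x y : PadicAlgCl 2} (h : ‖y‖ < ‖x‖) : ‖x + y‖ = ‖x‖ := by
  rw [IsUltrametricDist.norm_add_eq_max_of_norm_ne_norm h.ne', max_eq_left h.le]

private lemma l2_one {y : PadicAlgCl 2} (h : ‖y‖ < 1) : ‖1 + y‖ = 1 := by
  rw [l2_add (by rw [norm_one]; exact h), norm_one]

private lemma l2_sub_one {y : PadicAlgCl 2} (h : ‖y‖ < 1) : ‖1 - y‖ = 1 := by
  rw [sub_eq_add_neg]
  exact l2_one (by rwa [norm_neg])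

/-- first step -/
private lemma l2_base {z : PadicAlgCl 2} (hz : z ≠ 0) (h1 : ‖z‖ < 1) :
    ‖(4 * z / (1 + z) ^ 2) / (-(4 * z) / (1 - z) ^ 2) - 1‖ = 1 / 2 := by
  have ha : (1 + z) ≠ 0 := by
    rw [← norm_pos_iff, l2_one h1]
    exact one_pos
  have hb : (1 - z) ≠ 0 := by
    rw [← norm_pos_iff, l2_sub_one h1]
    exact one_pos
  have h4 : (4 : PadicAlgCl 2) ≠ 0 := by norm_num
  have h2 : (4 * z / (1 + z) ^ 2) / (-(4 * z) / (1 - z) ^ 2) - 1 =
      -(2 * (1 + z ^ 2)) / (1 + z) ^ 2 := by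
    field_simp
    ring
  have h3 : ‖z ^ 2‖ < 1 := by
    rw [norm_pow]
    exact pow_lt_one₀ (norm_nonneg _) h1 two_ne_zero
  rw [h2, norm_div, norm_neg, norm_mul, l2_two, l2_one h3, norm_pow, l2_one h1]
  norm_num

/-- induction step -/
private lemma l2_step {z w : PadicAlgCl 2} {δ : ℝ} (hz : 1 / 32 < ‖z ^ 2‖ ∧ ‖z ^ 2‖ < 1 / 8)
    (hw : 1 / 32 < ‖w ^ 2‖ ∧ ‖w ^ 2‖ < 1 / 8) (hδ : 1 / 2 ≤ δ)
    (h : ‖z ^ 2 / w ^ 2 - 1‖ = δ) :
    ‖(4 * z / (1 + z) ^ 2) / (4 * w / (1 + w) ^ 2) - 1‖ ^ 2 = δ := by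
  rw [norm_pow] at hz hw
  have hz0 : 0 < ‖z‖ := by
    rcases (norm_nonneg z).eq_or_lt with h0 | h0
    · rw [← h0] at hz
      norm_num at hz
    · exact h0
  have hw0 : 0 < ‖w‖ := by
    rcases (norm_nonneg w).eq_or_lt with h0 | h0
    · rw [← h0] at hw
      norm_num at hw
    · exact h0
  have hz1 : ‖z‖ < 1 / 2 := by nlinarith
  have hw1 : ‖w‖ < 1 / 2 := by nlinarith
  have hzn : z ≠ 0 := norm_pos_iff.1 hz0
  have hwn : w ≠ 0 := norm_pos_iff.1 hw0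
  have ha : (1 + z) ≠ 0 := by
    rw [← norm_pos_iff, l2_one (by linarith)]
    exact one_pos
  have hb : (1 + w) ≠ 0 := by
    rw [← norm_pos_iff, l2_one (by linarith)]
    exact one_pos
  have h4 : (4 : PadicAlgCl 2) ≠ 0 := by norm_num
  set r : PadicAlgCl 2 := z / w with hr
  have hr1 : (r - 1) * (r + 1) = z ^ 2 / w ^ 2 - 1 := by
    rw [hr]
    field_simp
    ring
  have hprod : ‖r - 1‖ * ‖r + 1‖ = δ := by
    rw [← norm_mul, hr1, h]
  have hsq : ‖r - 1‖ ^ 2 = δ := by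
    by_cases hc : 1 / 2 < ‖r - 1‖
    · have h5 : ‖r + 1‖ = ‖r - 1‖ := by
        have h6 : r + 1 = (r - 1) + 2 := by ring
        rw [h6]
        exact l2_add (by rw [l2_two]; exact hc)
      rw [h5] at hprod
      rw [← hprod]
      ring
    · exfalso
      have h5 : ‖r + 1‖ ≤ 1 / 2 := by
        have h6 : r + 1 = (r - 1) + 2 := by ring
        rw [h6]
        refine (IsUltrametricDist.norm_add_le_max _ _).trans (max_le (by linarith) ?_)
        rw [l2_two]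
      have h7 : ‖r - 1‖ * ‖r + 1‖ ≤ 1 / 2 * (1 / 2) :=
        mul_le_mul (by linarith) h5 (norm_nonneg _) (by norm_num)
      linarith
  have hrn : ‖r‖ < 2 := by
    rw [hr, norm_div, div_lt_iff₀ hw0]
    nlinarith
  -- the correction factor
  set u : PadicAlgCl 2 := (1 + w) / (1 + z) with hu
  obtain ⟨e, he1, he2, he3⟩ : ∃ e : ℝ, ‖u - 1‖ ≤ e ∧ e < 1 / 2 ∧ e ^ 2 < 1 / 8 := by
    refine ⟨max ‖w‖ ‖z‖, ?_, max_lt hw1 hz1, ?_⟩
    · have h5 : u - 1 = (w + -z) / (1 + z) := by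
        rw [hu]
        field_simp
        ring
      rw [h5, norm_div, l2_one (by linarith), div_one]
      refine (IsUltrametricDist.norm_add_le_max _ _).trans ?_
      rw [norm_neg]
    · rcases max_choice ‖w‖ ‖z‖ with h5 | h5
      · rw [h5]; exact hw.2
      · rw [h5]; exact hz.2
  have he0 : 0 ≤ e := (norm_nonneg _).trans he1
  have ht : ‖u ^ 2 - 1‖ ≤ e / 2 := by
    have h5 : u ^ 2 - 1 = (u - 1) * ((u - 1) + 2) := by ring
    rw [h5, norm_mul]
    have h6 : ‖(u - 1) + 2‖ ≤ 1 / 2 := by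
      refine (IsUltrametricDist.norm_add_le_max _ _).trans (max_le (by linarith) ?_)
      rw [l2_two]
    calc ‖u - 1‖ * ‖u - 1 + 2‖ ≤ e * (1 / 2) :=
          mul_le_mul he1 h6 (norm_nonneg _) he0
      _ = e / 2 := by ring
  have hfin : (4 * z / (1 + z) ^ 2) / (4 * w / (1 + w) ^ 2) - 1 =
      (r - 1) + r * (u ^ 2 - 1) := by
    rw [hr, hu]
    field_simp
    ring
  have hlt : ‖r * (u ^ 2 - 1)‖ < ‖r - 1‖ := by
    have h5 : ‖r * (u ^ 2 - 1)‖ ≤ e := by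
      rw [norm_mul]
      calc ‖r‖ * ‖u ^ 2 - 1‖ ≤ 2 * (e / 2) :=
            mul_le_mul hrn.le ht (norm_nonneg _) (by norm_num)
        _ = e := by ring
    refine lt_of_le_of_lt h5 ?_
    refine lt_of_pow_lt_pow_left₀ 2 (norm_nonneg _) ?_
    rw [hsq]
    linarith
  rw [hfin, l2_add hlt, hsq]

theorem loc (F : IntermediateField ℚ_[2] (PadicAlgCl 2)) [FiniteDimensional ℚ_[2] F]
    (A : Set (PadicAlgCl 2)) (hA : A.Nonempty) (hR : ∀ a ∈ A, 1 / 32 < ‖a‖ ∧ ‖a‖ < 1 / 8)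
    (h : ∀ a ∈ A, ∃ z ∈ F, z ^ 2 = a ∧ 4 * z / (1 + z) ^ 2 ∈ A ∧ -(4 * z) / (1 - z) ^ 2 ∈ A) :
    False := by
  have key : ∀ N : ℕ, ∃ a ∈ A, ∃ b ∈ A, ‖a / b - 1‖ ^ (2 ^ N) = 1 / 2 := by
    intro N
    induction N with
    | zero =>
      obtain ⟨a, ha⟩ := hA
      obtain ⟨z, -, hz, h1, h2⟩ := h a ha
      have h3 := hR a ha
      rw [← hz, norm_pow] at h3
      have hz0 : z ≠ 0 := by
        rintro rfl
        norm_num at h3
      have hz1 : ‖z‖ < 1 := by nlinarith [norm_nonneg z]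
      refine ⟨_, h1, _, h2, ?_⟩
      rw [l2_base hz0 hz1]
      norm_num
    | succ N ih =>
      obtain ⟨a, ha, b, hb, hab⟩ := ih
      obtain ⟨z, -, hz, h1, -⟩ := h a ha
      obtain ⟨w, -, hw, h2, -⟩ := h b hb
      refine ⟨_, h1, _, h2, ?_⟩
      have hδ : 1 / 2 ≤ ‖a / b - 1‖ := by
        by_contra hcon
        push Not at hcon
        have h3 : ‖a / b - 1‖ ^ (2 ^ N) < 1 / 2 := by
          calc ‖a / b - 1‖ ^ (2 ^ N) ≤ ‖a / b - 1‖ ^ 1 :=
                pow_le_pow_of_le_one (norm_nonneg _) (by linarith)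
                  (Nat.one_le_two_pow)
            _ < 1 / 2 := by rw [pow_one]; exact hcon
        linarith
      have hza := hR a ha
      have hwb := hR b hb
      have h4 := l2_step (z := z) (w := w) (δ := ‖a / b - 1‖) (by rw [hz]; exact hza)
        (by rw [hw]; exact hwb) hδ (by rw [hz, hw])
      rw [pow_succ' 2 N, pow_mul, h4, hab]
  obtain ⟨d, hd0, hd⟩ := disc F
  obtain ⟨a, ha, b, hb, hab⟩ := key d
  have hF : ∀ c ∈ A, c ∈ F := by
    intro c hc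
    obtain ⟨z, hz, hzc, -⟩ := h c hc
    rw [← hzc]
    exact pow_mem hz 2
  have hx : a / b - 1 ∈ F := sub_mem (div_mem (hF a ha) (hF b hb)) (one_mem F)
  have hlt : ‖a / b - 1‖ < 1 := by
    by_contra hcon
    push Not at hcon
    have := one_le_pow₀ (n := 2 ^ d) hcon
    linarith
  have hpos : 0 < ‖a / b - 1‖ := by
    rcases (norm_nonneg (a / b - 1)).eq_or_lt with h0 | h0
    · rw [← h0, zero_pow (by positivity)] at hab
      norm_num at hab
    · exact h0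
  have h5 := hd _ hx hlt
  have h6 : ‖a / b - 1‖ ^ (2 ^ d) < ‖a / b - 1‖ ^ d :=
    pow_lt_pow_right_of_lt_one₀ hpos hlt Nat.lt_two_pow_self
  linarith

end Pool.Agent.ZC
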