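import Pool.Agent.ZCInf.Defs

/-!
# One step of the tree of two-isogenies
-/

set_option autoImplicit false

noncomputable section

namespace Pool.Agent.ZC

open Polynomial WeierstrassCurve
open scoped Classical

private lemma node1_four_norm : ‖(4 : PadicAlgCl 2)‖ = 1 / 4 := by
  have h : (4 : PadicAlgCl 2) = 2 * 2 := by norm_num
  rw [h, norm_mul, two_norm]
  norm_num

private lemma node1_some_congr {K : Type} [Field K] {W : WeierstrassCurve K} {x y x' y' : K}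
    (h : W.toAffine.Nonsingular x y) (h' : W.toAffine.Nonsingular x' y') (hx : x = x')
    (hy : y = y') : (Affine.Point.some x y h : W.toAffine.Point) = .some x' y' h' := by
  subst hx
  subst hy
  rfl

/-- the norms in one step of the tree -/
theorem step_norm (ι : AlgebraicClosure ℚ →+* PadicAlgCl 2) (L μ : AlgebraicClosure ℚ)
    (hL : ‖ι L‖ = 1) (h1 : L ≠ 1) (hμ : μ ^ 2 = 1 - L) :
    μ ≠ 0 ∧ ‖ι μ‖ ≤ 1 ∧ ‖ι (1 + μ)‖ = 1 ∧ ‖ι (1 - μ)‖ = 1 ∧ ((1 - μ) / (1 + μ)) ^ 2 ≠ 1 ∧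
      ‖ι (((1 - μ) / (1 + μ)) ^ 2)‖ = 1 ∧
      1 - ((1 - μ) / (1 + μ)) ^ 2 = 4 * μ / (1 + μ) ^ 2 ∧
      ‖ι (1 - ((1 - μ) / (1 + μ)) ^ 2)‖ = ‖ι μ‖ / 4 ∧
      StepData (((1 - μ) / (1 + μ)) ^ 2) L ((1 - μ) / (1 + μ)) := by
  have hNA := PadicAlgCl.isNonarchimedean 2
  have hNS : ∀ a b : PadicAlgCl 2, ‖a - b‖ ≤ max ‖a‖ ‖b‖ := by
    intro a b
    have := hNA a (-b)
    rwa [norm_neg, ← sub_eq_add_neg] at this
  have hμ0 : μ ≠ 0 := by
    rintro rfl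
    apply h1
    have h2 : (1 : AlgebraicClosure ℚ) - L = 0 := by
      rw [← hμ]
      ring
    exact (sub_eq_zero.1 h2).symm
  have hμ1 : ‖ι μ‖ ≤ 1 := by
    have h2 : ‖ι μ‖ ^ 2 ≤ 1 := by
      rw [← norm_pow, ← map_pow, hμ, map_sub, map_one]
      refine (hNS _ _).trans ?_
      rw [norm_one, hL, max_self]
    nlinarith [norm_nonneg (ι μ)]
  have hp : ‖ι (1 + μ)‖ ≤ 1 := by
    rw [map_add, map_one]
    refine (hNA _ _).trans ?_
    rw [norm_one]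
    exact max_le le_rfl hμ1
  have hm : ‖ι (1 - μ)‖ ≤ 1 := by
    rw [map_sub, map_one]
    refine (hNS _ _).trans ?_
    rw [norm_one]
    exact max_le le_rfl hμ1
  have hpm : ‖ι (1 + μ)‖ * ‖ι (1 - μ)‖ = 1 := by
    rw [← norm_mul, ← map_mul, ← hL]
    congr 2
    linear_combination -hμ
  have hp1 : ‖ι (1 + μ)‖ = 1 := by
    refine le_antisymm hp ?_
    nlinarith [norm_nonneg (ι (1 + μ)), norm_nonneg (ι (1 - μ))]
  have hm1 : ‖ι (1 - μ)‖ = 1 := by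
    rw [hp1, one_mul] at hpm
    exact hpm
  have hp0 : 1 + μ ≠ 0 := by
    intro h
    rw [h, map_zero, norm_zero] at hp1
    exact zero_ne_one hp1
  have hm0 : 1 - μ ≠ 0 := by
    intro h
    rw [h, map_zero, norm_zero] at hm1
    exact zero_ne_one hm1
  have e1 : 1 - ((1 - μ) / (1 + μ)) ^ 2 = 4 * μ / (1 + μ) ^ 2 := by
    field_simp
    ring
  have e2 : 1 + (1 - μ) / (1 + μ) = 2 / (1 + μ) := by
    field_simp
    ring
  have e3 : 1 - (1 - μ) / (1 + μ) = 2 * μ / (1 + μ) := by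
    field_simp
    ring
  have e4 : ‖ι (1 - ((1 - μ) / (1 + μ)) ^ 2)‖ = ‖ι μ‖ / 4 := by
    rw [e1, map_div₀, norm_div, map_mul, norm_mul, map_pow, norm_pow, hp1, map_ofNat,
      node1_four_norm]
    ring
  refine ⟨hμ0, hμ1, hp1, hm1, ?_, ?_, e1, e4, ⟨rfl, ?_, ?_, ?_, ?_⟩⟩
  · intro h
    rw [h, sub_self] at e1
    have h2 : 4 * μ / (1 + μ) ^ 2 ≠ 0 :=
      div_ne_zero (mul_ne_zero (by norm_num) hμ0) (pow_ne_zero 2 hp0)
    exact h2 e1.symm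
  · rw [map_pow, norm_pow, map_div₀, norm_div, hp1, hm1]
    norm_num
  · rw [e2]
    field_simp
    linear_combination 4 * hμ
  · exact div_ne_zero hm0 hp0
  · rw [e2]
    exact div_ne_zero two_ne_zero hp0
  · rw [e3]
    exact div_ne_zero (mul_ne_zero two_ne_zero hμ0) hp0

theorem Node.child {ι : AlgebraicClosure ℚ →+* PadicAlgCl 2} {l L : AlgebraicClosure ℚ}
    {G : (leg L).toAffine.Point → (leg l).toAffine.Point} {S : Finset (AlgebraicClosure ℚ)}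
    (h : Node ι l L G S) (μ : AlgebraicClosure ℚ) (hμ : μ ^ 2 = 1 - L) :
    ∃ G', Node ι l (((1 - μ) / (1 + μ)) ^ 2) G'
      (insert μ (insert (((1 - μ) / (1 + μ)) ^ 2) S)) := by
  obtain ⟨hμ0, hμ1, hp1, hm1, hL1, hLn, e1, e4, hd⟩ := step_norm ι L μ h.nrm h.ne1 hμ
  obtain ⟨G', hG', hG'0, hG'n, hG's⟩ := exists_step hd
  have hp0 : 1 + μ ≠ 0 := by
    intro h
    rw [h, map_zero, norm_zero] at hp1
    exact zero_ne_one hp1
  have hμn : ‖ι (1 - L)‖ = ‖ι μ‖ ^ 2 := by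
    rw [← hμ, map_pow, norm_pow]
  have hμpos : 0 < ‖ι μ‖ := norm_pos_iff.2 ((map_ne_zero ι).2 hμ0)
  -- the new abscissa is close to one
  have key : ∀ x : AlgebraicClosure ℚ, x ≠ 1 →
      ‖ι (1 - x)‖ < ‖ι (1 - ((1 - μ) / (1 + μ)) ^ 2)‖ →
      x ≠ 0 ∧ (x + (1 - μ) / (1 + μ)) ^ 2 / ((1 + (1 - μ) / (1 + μ)) ^ 2 * x) ≠ 1 ∧
      ‖ι (1 - (x + (1 - μ) / (1 + μ)) ^ 2 / ((1 + (1 - μ) / (1 + μ)) ^ 2 * x))‖ <
        ‖ι (1 - L)‖ := by
    intro x hx1 hx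
    have hxx : ‖ι (1 - x)‖ < 1 := by
      rw [e4] at hx
      linarith
    have hx0 : x ≠ 0 := by
      rintro rfl
      rw [sub_zero, map_one, norm_one] at hxx
      exact lt_irrefl _ hxx
    have hxn : ‖ι x‖ = 1 := by
      have h2 : ι x = ι 1 - ι (1 - x) := by
        rw [← map_sub]
        congr 1
        ring
      rw [h2, norm_sub_eq_of_lt (by rw [map_one, norm_one]; exact hxx), map_one, norm_one]
    have hxL : ‖ι (x - ((1 - μ) / (1 + μ)) ^ 2)‖ = ‖ι μ‖ / 4 := by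
      have h2 : ι (x - ((1 - μ) / (1 + μ)) ^ 2) =
          ι (1 - ((1 - μ) / (1 + μ)) ^ 2) - ι (1 - x) := by
        rw [← map_sub]
        congr 1
        ring
      rw [h2, norm_sub_eq_of_lt hx, e4]
    have e5 : 1 - (x + (1 - μ) / (1 + μ)) ^ 2 / ((1 + (1 - μ) / (1 + μ)) ^ 2 * x) =
        (1 - x) * (x - ((1 - μ) / (1 + μ)) ^ 2) / ((2 / (1 + μ)) ^ 2 * x) := by
      have e6 : 1 + (1 - μ) / (1 + μ) = 2 / (1 + μ) := by
        field_simp
        ring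
      rw [e6]
      field_simp
      ring
    have e7 : ‖ι (1 - (x + (1 - μ) / (1 + μ)) ^ 2 / ((1 + (1 - μ) / (1 + μ)) ^ 2 * x))‖ =
        ‖ι (1 - x)‖ * ‖ι μ‖ := by
      rw [e5, map_div₀, norm_div, map_mul, norm_mul, hxL, map_mul, norm_mul, hxn, map_pow,
        norm_pow, map_div₀, norm_div, hp1, map_ofNat, two_norm]
      ring
    have hx1n : 0 < ‖ι (1 - x)‖ := norm_pos_iff.2 ((map_ne_zero ι).2 (sub_ne_zero.2 hx1.symm))
    refine ⟨hx0, ?_, ?_⟩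
    · intro h2
      rw [h2, sub_self, map_zero, norm_zero] at e7
      exact (mul_pos hx1n hμpos).ne e7
    · rw [e7, hμn]
      rw [e4] at hx
      nlinarith
  refine ⟨fun P => G (G' P), h.lift.comp hG', ?_, ?_, ?_, ?_, hLn, hL1, ?_, ?_⟩
  · change G (G' 0) = 0
    rw [hG'0, h.zero]
  · intro P
    change G (G' (-P)) = -G (G' P)
    rw [hG'n, h.neg]
  · exact Finset.mem_insert_of_mem (Finset.mem_insert_of_mem h.meml)
  · exact Finset.mem_insert_of_mem (Finset.mem_insert_self _ _)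
  · intro x y hxy hx1 hx N hN
    obtain ⟨hx0, hx2, hx3⟩ := key x hx1 hx
    obtain ⟨h', e⟩ := hG's x y hxy hx0
    change N • G (G' (.some x y hxy)) ≠ 0
    rw [e]
    exact h.ntor _ _ h' hx2 hx3 N hN
  · intro σ hσ T hT x y hxy hx1 hx h'
    have hσS : ∀ s ∈ S, σ s = s := fun s hs =>
      hσ s (Finset.mem_insert_of_mem (Finset.mem_insert_of_mem hs))
    have hσμ : σ μ = μ := hσ _ (Finset.mem_insert_self _ _)
    obtain ⟨hx0, hx2, hx3⟩ := key x hx1 hx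
    have hσx0 : σ x ≠ 0 := by simpa using hx0
    obtain ⟨h₁, e₁⟩ := hG's x y hxy hx0
    obtain ⟨h₂, e₂⟩ := hG's (σ x) (σ y) h' hσx0
    change T (G (G' (.some x y hxy))) = G (G' (.some (σ x) (σ y) h'))
    rw [e₁, e₂]
    have ex : σ ((x + (1 - μ) / (1 + μ)) ^ 2 / ((1 + (1 - μ) / (1 + μ)) ^ 2 * x)) =
        (σ x + (1 - μ) / (1 + μ)) ^ 2 / ((1 + (1 - μ) / (1 + μ)) ^ 2 * σ x) := by
      simp [hσμ]
    have ey : σ (y * (x ^ 2 - ((1 - μ) / (1 + μ)) ^ 2) /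
        ((1 + (1 - μ) / (1 + μ)) ^ 3 * x ^ 2)) =
        σ y * (σ x ^ 2 - ((1 - μ) / (1 + μ)) ^ 2) /
        ((1 + (1 - μ) / (1 + μ)) ^ 3 * σ x ^ 2) := by
      simp [hσμ]
    have h₃ : (leg L).toAffine.Nonsingular
        (σ ((x + (1 - μ) / (1 + μ)) ^ 2 / ((1 + (1 - μ) / (1 + μ)) ^ 2 * x)))
        (σ (y * (x ^ 2 - ((1 - μ) / (1 + μ)) ^ 2) /
          ((1 + (1 - μ) / (1 + μ)) ^ 3 * x ^ 2))) := by
      rw [ex, ey]
      exact h₂
    rw [h.gal σ hσS T hT _ _ h₁ hx2 hx3 h₃]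
    congr 1
    exact node1_some_congr _ _ ex ey

end Pool.Agent.ZC
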