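import Pool.Agent.ZCInf.Node0
import Pool.Agent.ZCInf.Node1

/-!
# Reaching the attracting annulus of the tree
-/

set_option autoImplicit false

noncomputable section

namespace Pool.Agent.ZC

open Polynomial WeierstrassCurve
open scoped Classical

private theorem reach_iter (ι : AlgebraicClosure ℚ →+* PadicAlgCl 2) (l : AlgebraicClosure ℚ)
    (hl : ‖ι l‖ = 1) (h1 : l ≠ 1) (N : ℕ) : ∃ L G S, Node ι l L G S ∧
      (16 * ‖ι (1 - L)‖) ^ (2 ^ N) = 16 * ‖ι (1 - l)‖ := by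
  induction N with
  | zero => exact ⟨l, _, _, Node.base ι l hl h1, by rw [pow_zero, pow_one]⟩
  | succ N ih =>
    obtain ⟨L, G, S, hN, hp⟩ := ih
    obtain ⟨μ, hμ⟩ := IsAlgClosed.exists_pow_nat_eq (1 - L) (n := 2) (by norm_num)
    obtain ⟨G', hG'⟩ := hN.child μ hμ
    refine ⟨_, G', _, hG', ?_⟩
    have h2 := (step_norm ι L μ hN.nrm hN.ne1 hμ).2.2.2.2.2.2.2.1
    have h3 : ‖ι μ‖ ^ 2 = ‖ι (1 - L)‖ := by
      rw [← norm_pow, ← map_pow, hμ]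
    rw [h2, pow_succ', pow_mul, ← hp]
    congr 1
    rw [← h3]
    ring

theorem reach (ι : AlgebraicClosure ℚ →+* PadicAlgCl 2) (l : AlgebraicClosure ℚ)
    (hl : ‖ι l‖ = 1) (h1 : l ≠ 1) : ∃ L G S, Node ι l L G S ∧ InR ι L := by
  have hc : 0 < 16 * ‖ι (1 - l)‖ := by
    have : (1 - l) ≠ 0 := sub_ne_zero.2 h1.symm
    have : ι (1 - l) ≠ 0 := by
      intro h
      exact this ((map_eq_zero ι).1 h)
    positivity
  obtain ⟨n1, hn1⟩ := exists_pow_lt_of_lt_one hc (show (1 / 2 : ℝ) < 1 by norm_num)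
  obtain ⟨n2, hn2⟩ := pow_unbounded_of_one_lt (16 * ‖ι (1 - l)‖) (show (1 : ℝ) < 2 by norm_num)
  obtain ⟨L, G, S, hN, hp⟩ := reach_iter ι l hl h1 (max n1 n2)
  have hlt : max n1 n2 ≤ 2 ^ (max n1 n2) := Nat.lt_two_pow_self.le
  refine ⟨L, G, S, hN, ?_, ?_⟩
  · by_contra h
    push Not at h
    have h2 : (16 * ‖ι (1 - L)‖) ^ (2 ^ (max n1 n2)) ≤ (1 / 2) ^ (2 ^ (max n1 n2)) :=
      pow_le_pow_left₀ (by positivity) (by linarith) _
    have h3 : (1 / 2 : ℝ) ^ (2 ^ (max n1 n2)) ≤ (1 / 2) ^ n1 :=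
      pow_le_pow_of_le_one (by norm_num) (by norm_num) ((le_max_left _ _).trans hlt)
    rw [hp] at h2
    linarith
  · by_contra h
    push Not at h
    have h2 : (2 : ℝ) ^ (2 ^ (max n1 n2)) ≤ (16 * ‖ι (1 - L)‖) ^ (2 ^ (max n1 n2)) :=
      pow_le_pow_left₀ (by norm_num) (by linarith) _
    have h3 : (2 : ℝ) ^ n2 ≤ 2 ^ (2 ^ (max n1 n2)) :=
      pow_le_pow_right₀ (by norm_num) ((le_max_right _ _).trans hlt)
    rw [hp] at h2
    linarith

end Pool.Agent.ZC
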