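import Pool.Agent.ZCInf.Defs

/-!
# Square roots near `1` in a finite extension of `ℚ₂` (P3)
-/

set_option autoImplicit false

noncomputable section

namespace Pool.Agent.ZC

open Polynomial WeierstrassCurve
open scoped Classical

private theorem sqn_two : ‖(2 : PadicAlgCl 2)‖ = 1 / 2 := by
  have h := PadicAlgCl.norm_extends (p := 2) (2 : ℚ_[2])
  rw [map_ofNat] at h
  rw [h]
  have := Padic.norm_p (p := 2)
  push_cast at this
  rw [this]
  norm_num

private theorem sqn_iso (s : PadicAlgCl 2 ≃ₐ[ℚ_[2]] PadicAlgCl 2) (x : PadicAlgCl 2) :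
    ‖s x‖ = ‖x‖ :=
  (spectralNorm_eq_of_equiv s x).symm

private theorem sqn_plus {z : PadicAlgCl 2} (h : ‖z - 1‖ < 1 / 2) : ‖z + 1‖ = 1 / 2 := by
  have h1 : z + 1 = (z - 1) + 2 := by ring
  have hne : ‖z - 1‖ ≠ ‖(2 : PadicAlgCl 2)‖ := by
    rw [sqn_two]
    exact h.ne
  rw [h1, IsUltrametricDist.norm_add_eq_max_of_norm_ne_norm hne, sqn_two]
  exact max_eq_right h.le

theorem sq_near (F : IntermediateField ℚ_[2] (PadicAlgCl 2)) (x : PadicAlgCl 2) (hx : x ∈ F)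
    (h : ‖x - 1‖ < 1 / 4) : ∃ z ∈ F, z ^ 2 = x := by
  have key : ∀ z : PadicAlgCl 2, z ^ 2 = x → ‖z - 1‖ < 1 / 2 → z ∈ F := by
    intro z hz hz1
    by_contra hzF
    have : IsAlgClosed (PadicAlgCl 2) := AlgebraicClosure.isAlgClosed ℚ_[2]
    have : Algebra.IsAlgebraic F (PadicAlgCl 2) := Algebra.IsAlgebraic.tower_top (K := ℚ_[2]) F
    have : IsAlgClosure F (PadicAlgCl 2) := ⟨inferInstance, inferInstance⟩
    have : IsGalois F (PadicAlgCl 2) := IsAlgClosure.isGalois F (PadicAlgCl 2)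
    have h1 : ¬ ∀ s : PadicAlgCl 2 ≃ₐ[F] PadicAlgCl 2, s z = z := by
      intro hall
      have h2 := (InfiniteGalois.mem_bot_iff_fixed (k := F) (K := PadicAlgCl 2) z).2 hall
      rw [IntermediateField.mem_bot] at h2
      obtain ⟨c, rfl⟩ := h2
      exact hzF c.2
    push Not at h1
    obtain ⟨s, hs⟩ := h1
    have h2 : (s z) ^ 2 = z ^ 2 := by
      rw [← map_pow, hz]
      exact s.commutes ⟨x, hx⟩
    have h3 : s z = -z := (sq_eq_sq_iff_eq_or_eq_neg.1 h2).resolve_left hs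
    have h4 := sqn_iso (s.restrictScalars ℚ_[2]) (z - 1)
    have h5 : (s.restrictScalars ℚ_[2]) (z - 1) = -(z + 1) := by
      change s (z - 1) = _
      rw [map_sub, map_one, h3]
      ring
    rw [h5, norm_neg, sqn_plus hz1] at h4
    exact absurd h4 hz1.ne'
  obtain ⟨z, hz⟩ := IsAlgClosed.exists_pow_nat_eq (k := PadicAlgCl 2) x (n := 2) (by norm_num)
  by_cases h1 : ‖z - 1‖ < 1 / 2
  · exact ⟨z, key z hz h1, hz⟩
  · refine ⟨-z, key (-z) (by rw [neg_sq, hz]) ?_, by rw [neg_sq, hz]⟩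
    by_contra h2
    push Not at h1 h2
    have h3 : ‖z - 1‖ * ‖-z - 1‖ = ‖x - 1‖ := by
      rw [← norm_mul, ← norm_neg, ← hz]
      congr 1
      ring
    have h4 : (1 / 2 : ℝ) * (1 / 2) ≤ ‖z - 1‖ * ‖-z - 1‖ :=
      mul_le_mul h1 h2 (by norm_num) (norm_nonneg _)
    rw [h3] at h4
    linarith

end Pool.Agent.ZC
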