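import Pool.Agent.ZCInf.Next
import Pool.Agent.ZCInf.Gal
import Pool.Agent.ZCInf.Sq
import Pool.Agent.ZCInf.Reach
import Pool.Agent.ZCInf.Indep2
import Pool.Agent.ZC.Act
import Pool.Agent.ZC.Leg

/-!
# Infinitely many independent points with the same abscissa
-/

set_option autoImplicit false

noncomputable section

namespace Pool.Agent.ZC

open Polynomial WeierstrassCurve
open scoped Classical

/-- a node of the tree, together with a field which contains `u` and the square roots of `u` and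
`u - 1`, but no square root of `1 - L` -/
private structure ManySt (ι : AlgebraicClosure ℚ →+* PadicAlgCl 2)
    (l u v w : AlgebraicClosure ℚ) where
  L : AlgebraicClosure ℚ
  G : (leg L).toAffine.Point → (leg l).toAffine.Point
  S : Finset (AlgebraicClosure ℚ)
  node : Node ι l L G S
  inR : InR ι L
  memu : u ∈ S
  memv : v ∈ S
  memw : w ∈ S
  nsq : ∀ z : PadicAlgCl 2, z ^ 2 = ι (1 - L) → z ∉ FF ι S

private theorem many_step {ι : AlgebraicClosure ℚ →+* PadicAlgCl 2}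
    {l u v w : AlgebraicClosure ℚ} (s : ManySt ι l u v w) (y : AlgebraicClosure ℚ) :
    ∃ s' : ManySt ι l u v w, s.S ⊆ s'.S ∧ y ∈ s'.S := by
  obtain ⟨L', G', S', hN, hR, hS, hn⟩ := next (s.node.mono (Finset.subset_insert y s.S)) s.inR
  have h1 : s.S ⊆ S' := (Finset.subset_insert y s.S).trans hS
  exact ⟨⟨L', G', S', hN, hR, h1 s.memu, h1 s.memv, h1 s.memw, hn⟩, h1,
    hS (Finset.mem_insert_self y s.S)⟩

private theorem many_start {ι : AlgebraicClosure ℚ →+* PadicAlgCl 2} {l : AlgebraicClosure ℚ}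
    (u v w : AlgebraicClosure ℚ) (hl : ‖ι l‖ = 1) (h1 : l ≠ 1) :
    Nonempty (ManySt ι l u v w) := by
  obtain ⟨L, G, S, hN, hR⟩ := reach ι l hl h1
  obtain ⟨L', G', S', hN', hR', hS, hn⟩ := next (hN.mono (S' := insert u (insert v (insert w S)))
    (((Finset.subset_insert w S).trans (Finset.subset_insert v _)).trans
      (Finset.subset_insert u _))) hR
  exact ⟨⟨L', G', S', hN', hR', hS (by simp), hS (by simp), hS (by simp), hn⟩⟩

section Facts

variable {ι : AlgebraicClosure ℚ →+* PadicAlgCl 2} {l u v w : AlgebraicClosure ℚ}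

private theorem many_lt (hu : ‖ι (1 - u)‖ < 1 / 256) (s : ManySt ι l u v w) :
    ‖ι (1 - u)‖ < ‖ι (1 - s.L)‖ := by
  have h := s.inR.1
  linarith

private theorem many_u0 (hu : ‖ι (1 - u)‖ < 1 / 256) : u ≠ 0 := by
  rintro rfl
  rw [sub_zero, map_one, norm_one] at hu
  norm_num at hu

private theorem many_L0 (s : ManySt ι l u v w) : s.L ≠ 0 := by
  intro h
  have h1 := s.node.nrm
  rw [h, map_zero, norm_zero] at h1
  exact zero_ne_one h1

private theorem many_uL (hu : ‖ι (1 - u)‖ < 1 / 256) (s : ManySt ι l u v w) : u - s.L ≠ 0 := by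
  intro h
  have h1 := many_lt hu s
  have h2 : (1 : AlgebraicClosure ℚ) - s.L = 1 - u := congrArg (fun z => 1 - z) (sub_eq_zero.1 h).symm
  rw [h2] at h1
  exact lt_irrefl _ h1

private theorem many_y0 (hu1 : u ≠ 1) (hu : ‖ι (1 - u)‖ < 1 / 256) (s : ManySt ι l u v w)
    {y : AlgebraicClosure ℚ} (hy : y ^ 2 = u * (u - 1) * (u - s.L)) : y ≠ 0 := by
  rintro rfl
  rw [zero_pow two_ne_zero] at hy
  exact mul_ne_zero (mul_ne_zero (many_u0 hu) (sub_ne_zero.2 hu1)) (many_uL hu s) hy.symm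

private theorem many_ns (s : ManySt ι l u v w)
    {y : AlgebraicClosure ℚ} (hy : y ^ 2 = u * (u - 1) * (u - s.L)) :
    (leg s.L).toAffine.Nonsingular u y :=
  ((IsLeg.leg (many_L0 s) s.node.ne1).nonsingular u y).2 hy

private theorem many_not (hv : v ^ 2 = u) (hw : w ^ 2 = u - 1) (hu1 : u ≠ 1)
    (hu : ‖ι (1 - u)‖ < 1 / 256) (s : ManySt ι l u v w)
    {y : AlgebraicClosure ℚ} (hy : y ^ 2 = u * (u - 1) * (u - s.L)) : ι y ∉ FF ι s.S := by
  intro hmem
  have hL1 : 1 - s.L ≠ 0 := sub_ne_zero.2 (Ne.symm s.node.ne1)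
  have hu0 := many_u0 hu
  have huL := many_uL hu s
  have hv0 : v ≠ 0 := by
    rintro rfl
    exact hu0 (by rw [← hv]; ring)
  have hw0 : w ≠ 0 := by
    rintro rfl
    apply hu1
    have h := hw
    rw [zero_pow two_ne_zero] at h
    exact (sub_eq_zero.1 h.symm)
  have mu := FF.mem ι s.memu
  have mL := FF.mem ι s.node.memL
  have hx : ι ((u - s.L) / (1 - s.L)) ∈ FF ι s.S := by
    rw [map_div₀, map_sub, map_sub, map_one]
    exact (FF ι s.S).div_mem ((FF ι s.S).sub_mem mu mL) ((FF ι s.S).sub_mem (FF ι s.S).one_mem mL)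
  have hn : ‖ι ((u - s.L) / (1 - s.L)) - 1‖ < 1 / 4 := by
    have e1 : ι ((u - s.L) / (1 - s.L)) - 1 = -(ι (1 - u) / ι (1 - s.L)) := by
      rw [← map_div₀, ← map_neg, ← map_one ι, ← map_sub]
      congr 1
      field_simp
      ring
    rw [e1, norm_neg, norm_div]
    have h2 := s.inR.1
    have h3 : 0 < ‖ι (1 - s.L)‖ := by linarith
    rw [div_lt_iff₀ h3]
    linarith
  obtain ⟨z, hz, hz2⟩ := sq_near (FF ι s.S) _ hx hn
  have hz0 : z ≠ 0 := by
    rintro rfl
    rw [zero_pow two_ne_zero] at hz2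
    have h := (map_eq_zero ι).1 hz2.symm
    exact div_ne_zero huL hL1 h
  apply s.nsq (ι y / (ι v * ι w * z))
  · rw [div_pow, mul_pow, mul_pow, hz2, ← map_pow, ← map_pow, ← map_pow, hy, hv, hw, ← map_mul,
      ← map_mul, ← map_div₀]
    congr 1
    have hu1' : u - 1 ≠ 0 := sub_ne_zero.2 hu1
    field_simp
  · exact (FF ι s.S).div_mem hmem ((FF ι s.S).mul_mem ((FF ι s.S).mul_mem (FF.mem ι s.memv)
      (FF.mem ι s.memw)) hz)

private theorem many_gal (hv : v ^ 2 = u) (hw : w ^ 2 = u - 1) (hu1 : u ≠ 1)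
    (hu : ‖ι (1 - u)‖ < 1 / 256) (s : ManySt ι l u v w)
    {y : AlgebraicClosure ℚ} (hy : y ^ 2 = u * (u - 1) * (u - s.L)) :
    ∃ σ : AlgebraicClosure ℚ ≃ₐ[ℚ] AlgebraicClosure ℚ, (∀ a ∈ s.S, σ a = a) ∧ σ y = -y := by
  apply gal_flip ι s.S y _ (many_not hv hw hu1 hu s hy)
  rw [hy]
  have mu : u ∈ IntermediateField.adjoin ℚ (s.S : Set (AlgebraicClosure ℚ)) :=
    IntermediateField.subset_adjoin _ _ (by exact_mod_cast s.memu)
  have mL : s.L ∈ IntermediateField.adjoin ℚ (s.S : Set (AlgebraicClosure ℚ)) :=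
    IntermediateField.subset_adjoin _ _ (by exact_mod_cast s.node.memL)
  exact mul_mem (mul_mem mu (sub_mem mu (one_mem _))) (sub_mem mu mL)

private theorem many_fix (hu1 : u ≠ 1) (hu : ‖ι (1 - u)‖ < 1 / 256) (s : ManySt ι l u v w)
    {y : AlgebraicClosure ℚ} (hy : y ^ 2 = u * (u - 1) * (u - s.L))
    {σ : AlgebraicClosure ℚ ≃ₐ[ℚ] AlgebraicClosure ℚ} (hσ : ∀ a ∈ s.S, σ a = a)
    (hσy : σ y = y) {T : (leg l).toAffine.Point →+ (leg l).toAffine.Point}
    (hT : ∀ x y h, ∃ h', T (.some x y h) = .some (σ x) (σ y) h') :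
    T (s.G (.some u y (many_ns s hy))) = s.G (.some u y (many_ns s hy)) := by
  have hσu : σ u = u := hσ u s.memu
  have h' : (leg s.L).toAffine.Nonsingular (σ u) (σ y) := by
    rw [hσu, hσy]
    exact many_ns s hy
  rw [s.node.gal σ hσ T hT u y (many_ns s hy) hu1 (many_lt hu s) h']
  congr 1
  rw [Affine.Point.some.injEq]
  exact ⟨hσu, hσy⟩

private theorem many_flip (hu1 : u ≠ 1) (hu : ‖ι (1 - u)‖ < 1 / 256) (s : ManySt ι l u v w)
    {y : AlgebraicClosure ℚ} (hy : y ^ 2 = u * (u - 1) * (u - s.L))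
    {σ : AlgebraicClosure ℚ ≃ₐ[ℚ] AlgebraicClosure ℚ} (hσ : ∀ a ∈ s.S, σ a = a)
    (hσy : σ y = -y) {T : (leg l).toAffine.Point →+ (leg l).toAffine.Point}
    (hT : ∀ x y h, ∃ h', T (.some x y h) = .some (σ x) (σ y) h') :
    T (s.G (.some u y (many_ns s hy))) = -s.G (.some u y (many_ns s hy)) := by
  have hσu : σ u = u := hσ u s.memu
  have h' : (leg s.L).toAffine.Nonsingular (σ u) (σ y) := by
    rw [hσu, hσy]
    exact many_ns s (by rw [neg_sq]; exact hy)
  rw [s.node.gal σ hσ T hT u y (many_ns s hy) hu1 (many_lt hu s) h', ← s.node.neg]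
  congr 1
  rw [Affine.Point.neg_some, Affine.Point.some.injEq]
  refine ⟨hσu, ?_⟩
  rw [hσy]
  unfold Affine.negY leg
  simp

end Facts

theorem many (ι : AlgebraicClosure ℚ →+* PadicAlgCl 2) (l u : AlgebraicClosure ℚ)
    (hl : ‖ι l‖ = 1) (h1 : l ≠ 1) (hu1 : u ≠ 1) (hu : ‖ι (1 - u)‖ < 1 / 256) :
    ∃ P : ℕ → (leg l).toAffine.Point, LinearIndependent ℤ P ∧ ∀ i, P i ∈ SetE (leg l) u := by
  obtain ⟨v, hv⟩ := IsAlgClosed.exists_pow_nat_eq u (n := 2) (by norm_num)
  obtain ⟨w, hw⟩ := IsAlgClosed.exists_pow_nat_eq (u - 1) (n := 2) (by norm_num)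
  obtain ⟨s0⟩ := many_start (ι := ι) u v w hl h1
  have hY : ∀ s : ManySt ι l u v w, ∃ y : AlgebraicClosure ℚ,
      y ^ 2 = u * (u - 1) * (u - s.L) := fun s =>
    IsAlgClosed.exists_pow_nat_eq _ (by norm_num)
  choose Y hY using hY
  choose nx hnx1 hnx2 using fun s : ManySt ι l u v w => many_step s (Y s)
  let st : ℕ → ManySt ι l u v w := fun n => Nat.rec s0 (fun _ s => nx s) n
  have hst : ∀ n, st (n + 1) = nx (st n) := fun n => rfl
  have hmono : Monotone fun n => (st n).S := monotone_nat_of_le_succ fun n => by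
    show (st n).S ⊆ (st (n + 1)).S
    rw [hst]
    exact hnx1 _
  have hmem : ∀ c b, c < b → Y (st c) ∈ (st b).S := by
    intro c b hcb
    have h2 : (st (c + 1)).S ⊆ (st b).S := hmono hcb
    apply h2
    rw [hst]
    exact hnx2 _
  refine ⟨fun n => (st n).G (.some u (Y (st n)) (many_ns (st n) (hY (st n)))), ?_, ?_⟩
  · apply linInd2
    · intro a N hN
      exact (st a).node.ntor u _ _ hu1 (many_lt hu (st a)) N hN
    · intro b
      obtain ⟨σ, hσ, hσy⟩ := many_gal hv hw hu1 hu (st b) (hY (st b))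
      obtain ⟨T, hT⟩ := exists_act (l := l) σ (hσ l (st b).node.meml)
      refine ⟨T, fun c hcb => ?_, ?_⟩
      · have h2 : (st c).S ⊆ (st b).S := hmono hcb.le
        exact many_fix hu1 hu (st c) (hY (st c)) (fun a ha => hσ a (h2 ha))
          (hσ _ (hmem c b hcb)) hT
      · exact many_flip hu1 hu (st b) (hY (st b)) hσ hσy hT
  · intro i
    exact ⟨(st i).L, Y (st i), many_ns (st i) (hY (st i)), (st i).G, many_L0 (st i),
      (st i).node.ne1, many_y0 hu1 hu (st i) (hY (st i)), (st i).node.lift, (st i).node.zero, rfl⟩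

end Pool.Agent.ZC
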