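import Pool.Agent.ZCInf.Node1
import Pool.Agent.ZCInf.Loc2

/-!
# A node of the tree where the next square root generates a new extension
-/

set_option autoImplicit false

noncomputable section

namespace Pool.Agent.ZC

open Polynomial WeierstrassCurve
open scoped Classical

private theorem next_child {ι : AlgebraicClosure ℚ →+* PadicAlgCl 2}
    {l L L₀ : AlgebraicClosure ℚ} {G : (leg L).toAffine.Point → (leg l).toAffine.Point}
    {S S₀ : Finset (AlgebraicClosure ℚ)} (h : Node ι l L G S) (hR : InR ι L) (hS : S₀ ⊆ S)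
    {F : IntermediateField ℚ_[2] (PadicAlgCl 2)} (hF : ∀ s ∈ S, ι s ∈ F)
    (μ : AlgebraicClosure ℚ) (hμ : μ ^ 2 = 1 - L) (hμF : ι μ ∈ F)
    (hL₀ : L₀ = ((1 - μ) / (1 + μ)) ^ 2) :
    ∃ (G' : (leg L₀).toAffine.Point → (leg l).toAffine.Point)
      (S' : Finset (AlgebraicClosure ℚ)), Node ι l L₀ G' S' ∧ InR ι L₀ ∧ S₀ ⊆ S' ∧
      ∀ s ∈ S', ι s ∈ F := by
  subst hL₀
  obtain ⟨-, -, -, -, -, -, -, hn, -⟩ := step_norm ι L μ h.nrm h.ne1 hμ
  obtain ⟨G', hG'⟩ := h.child μ hμ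
  have ht : ‖ι μ‖ ^ 2 = ‖ι (1 - L)‖ := by
    rw [← hμ, map_pow, norm_pow]
  have ht0 : 0 ≤ ‖ι μ‖ := norm_nonneg _
  obtain ⟨h1, h2⟩ := hR
  refine ⟨G', _, hG', ⟨?_, ?_⟩, ?_, ?_⟩
  · rw [hn]
    have : 1 / 8 < ‖ι μ‖ := by
      by_contra hc
      push Not at hc
      nlinarith
    linarith
  · rw [hn]
    have : ‖ι μ‖ < 1 / 2 := by
      by_contra hc
      push Not at hc
      nlinarith
    linarith
  · intro s hs
    exact Finset.mem_insert_of_mem (Finset.mem_insert_of_mem (hS hs))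
  · intro s hs
    rcases Finset.mem_insert.1 hs with rfl | hs
    · exact hμF
    · rcases Finset.mem_insert.1 hs with rfl | hs
      · rw [map_pow, map_div₀, map_sub, map_add, map_one]
        exact pow_mem (div_mem (sub_mem (one_mem F) hμF) (add_mem (one_mem F) hμF)) 2
      · exact hF s hs

theorem next {ι : AlgebraicClosure ℚ →+* PadicAlgCl 2} {l L : AlgebraicClosure ℚ}
    {G : (leg L).toAffine.Point → (leg l).toAffine.Point} {S : Finset (AlgebraicClosure ℚ)}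
    (h : Node ι l L G S) (hR : InR ι L) :
    ∃ L' G' S', Node ι l L' G' S' ∧ InR ι L' ∧ S ⊆ S' ∧
      ∀ z : PadicAlgCl 2, z ^ 2 = ι (1 - L') → z ∉ FF ι S' := by
  by_contra hcon
  push Not at hcon
  have := FF.fin ι S
  refine loc (FF ι S) {a | ∃ (L₁ : AlgebraicClosure ℚ)
    (G₁ : (leg L₁).toAffine.Point → (leg l).toAffine.Point) (S₁ : Finset (AlgebraicClosure ℚ)),
    a = ι (1 - L₁) ∧ Node ι l L₁ G₁ S₁ ∧ InR ι L₁ ∧ S ⊆ S₁ ∧ ∀ s ∈ S₁, ι s ∈ FF ι S}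
    ⟨ι (1 - L), L, G, S, rfl, h, hR, subset_rfl, fun s hs => FF.mem ι hs⟩ ?_ ?_
  · rintro a ⟨L₁, G₁, S₁, rfl, -, hR₁, -, -⟩
    exact hR₁
  · rintro a ⟨L₁, G₁, S₁, rfl, hN, hR₁, hSS, hF⟩
    obtain ⟨z, hz, hzF⟩ := hcon L₁ G₁ S₁ hN hR₁ hSS
    have hzF' : z ∈ FF ι S := FF.le ι hF hzF
    obtain ⟨μ, hμ, hμz⟩ : ∃ μ : AlgebraicClosure ℚ, μ ^ 2 = 1 - L₁ ∧ ι μ = z := by
      obtain ⟨μ, hμ⟩ := IsAlgClosed.exists_pow_nat_eq (1 - L₁) (n := 2) (by norm_num)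
      have hsq : ι μ ^ 2 = z ^ 2 := by rw [hz, ← hμ, map_pow]
      rcases sq_eq_sq_iff_eq_or_eq_neg.1 hsq with h1 | h1
      · exact ⟨μ, hμ, h1⟩
      · exact ⟨-μ, by rw [neg_sq, hμ], by rw [map_neg, h1, neg_neg]⟩
    refine ⟨z, hzF', hz, ?_, ?_⟩
    · obtain ⟨G', S', h1, h2, h3, h4⟩ := next_child hN hR₁ hSS hF μ hμ (hμz ▸ hzF') rfl
      refine ⟨_, G', S', ?_, h1, h2, h3, h4⟩
      obtain ⟨-, -, -, -, -, -, he, -, -⟩ := step_norm ι L₁ μ hN.nrm hN.ne1 hμ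
      rw [he, ← hμz]
      simp only [map_div₀, map_mul, map_pow, map_add, map_one, map_ofNat]
    · have hμ' : (-μ) ^ 2 = 1 - L₁ := by rw [neg_sq, hμ]
      have hzn : ι (-μ) ∈ FF ι S := by
        rw [map_neg, hμz]
        exact neg_mem hzF'
      obtain ⟨G', S', h1, h2, h3, h4⟩ := next_child hN hR₁ hSS hF (-μ) hμ' hzn rfl
      refine ⟨_, G', S', ?_, h1, h2, h3, h4⟩
      obtain ⟨-, -, -, -, -, -, he, -, -⟩ := step_norm ι L₁ (-μ) hN.nrm hN.ne1 hμ'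
      rw [he, ← hμz]
      simp only [map_div₀, map_mul, map_pow, map_add, map_one, map_ofNat, map_neg]
      rw [mul_neg, sub_eq_add_neg]

end Pool.Agent.ZC
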