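import Pool.Agent.ZCInf.Defs

/-!
# The base node of the tree of isogenies
-/

set_option autoImplicit false

noncomputable section

namespace Pool.Agent.ZC

open Polynomial WeierstrassCurve
open scoped Classical

theorem Node.base (ι : AlgebraicClosure ℚ →+* PadicAlgCl 2) (l : AlgebraicClosure ℚ)
    (hl : ‖ι l‖ = 1) (h1 : l ≠ 1) : Node ι l l (fun P => P) {l} := by
  have h0 : l ≠ 0 := by
    rintro rfl
    rw [map_zero, norm_zero] at hl
    exact zero_ne_one hl
  have hleg : IsLeg (leg l) l := IsLeg.leg h0 h1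
  refine ⟨Lift.id, rfl, fun P => rfl, Finset.mem_singleton_self l, Finset.mem_singleton_self l, hl,
    h1, ?_, ?_⟩
  · intro x y h hx hn N hN hcon
    have hq : (leg l).toAffine.Nonsingular 1 0 := (hleg.nonsingular 1 0).mpr (by ring)
    have hy2 : y ^ 2 = x * (x - 1) * (x - l) := (hleg.nonsingular x y).mp h
    have hneg : (leg l).toAffine.negY 1 0 = 0 := by
      unfold Affine.negY leg
      simp
    have htwo : (2 : ℤ) • (Affine.Point.some 1 0 hq : (leg l).toAffine.Point) = 0 := by
      rw [two_zsmul]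
      exact Affine.Point.add_of_Y_eq rfl hneg.symm
    have hx1 : x - 1 ≠ 0 := sub_ne_zero.2 hx
    have hadd := Affine.Point.add_of_X_ne (h₁ := h) (h₂ := hq) hx
    have hslope : (leg l).toAffine.slope x 1 y 0 = y / (x - 1) := by
      rw [Affine.slope_of_X_ne hx, sub_zero]
    have hX : (leg l).toAffine.addX x 1 ((leg l).toAffine.slope x 1 y 0) =
        1 + (1 - l) / (x - 1) := by
      rw [hslope]
      unfold Affine.addX leg
      field_simp
      linear_combination hy2
    have hd : ‖ι (1 - x)‖ ≠ 0 := by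
      rw [norm_ne_zero_iff, _root_.map_ne_zero]
      exact sub_ne_zero.2 (Ne.symm hx)
    have hpos : 0 < ‖ι (1 - x)‖ := lt_of_le_of_ne (norm_nonneg _) (Ne.symm hd)
    have hbig : 1 < ‖ι ((1 - l) / (x - 1))‖ := by
      rw [map_div₀, norm_div]
      have e1 : ‖ι (x - 1)‖ = ‖ι (1 - x)‖ := by
        rw [← norm_neg, ← map_neg, neg_sub]
      rw [e1, one_lt_div hpos]
      exact hn
    have hnX : max 1 ‖ι l‖ < ‖ι ((leg l).toAffine.addX x 1 ((leg l).toAffine.slope x 1 y 0))‖ := by
      rw [hl, max_self, hX]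
      have e2 : ‖ι (1 + (1 - l) / (x - 1))‖ = ‖ι ((1 - l) / (x - 1))‖ := by
        rw [add_comm, map_add, map_one]
        have := norm_sub_eq_of_lt (a := ι ((1 - l) / (x - 1))) (b := -1)
          (by rw [norm_neg, norm_one]; exact hbig)
        rw [sub_neg_eq_add] at this
        exact this
      rw [e2]
      exact hbig
    have hnt := nonTor ι h0 h1 _ _ (Affine.nonsingular_add h hq fun hxy => hx hxy.left) hnX
      (2 * N) (mul_ne_zero two_ne_zero hN)
    apply hnt
    · rw [← hadd, zsmul_add, mul_zsmul, hcon, zsmul_zero, zero_add, mul_comm, mul_zsmul, htwo,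
        zsmul_zero]
  · intro σ _ T hT x y h _ _ h'
    obtain ⟨h'', e⟩ := hT x y h
    exact e

end Pool.Agent.ZC
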